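import Pool.Agent.H101.HB.Stm
import Pool.Graph.R_seed8.W182.KO.Strip
import Pool.Graph.R_seed8.H448R2.GC.X2
import Pool.Graph.R_pool_sql_team_seeded_1acbe0a2.Y907.AP.SQ

/-!
# Project HB-uniform (helper101): basic facts

`shiftG` (moving a vertical line), facts on `W`, `G`, `xi`, `iz`, `A`, `b`.
-/

set_option autoImplicit false

open Complex MeasureTheory Filter Topology Set

namespace Pool.Agent.H101.HB

open Pool.Agent.Y763.HB

/-! ## Polynomial times Gaussian -/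

theorem pg_le (n : ℕ) {T : ℝ} (hT : 0 < T) {x : ℝ} (hx : 0 ≤ x) :
    (1 + x) ^ n * Real.exp (-(x ^ 2 / T ^ 2)) ≤ n.factorial * Real.exp (1 + T ^ 2 / 4) := by
  have h1 : (1 + x) ^ n ≤ n.factorial * Real.exp (1 + x) := by
    have h := Real.pow_div_factorial_le_exp (x := 1 + x) (by linarith) n
    rw [div_le_iff₀ (by positivity)] at h
    linarith [h]
  calc (1 + x) ^ n * Real.exp (-(x ^ 2 / T ^ 2)) ≤
      n.factorial * Real.exp (1 + x) * Real.exp (-(x ^ 2 / T ^ 2)) :=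
        mul_le_mul_of_nonneg_right h1 (Real.exp_pos _).le
    _ = n.factorial * Real.exp (1 + x - x ^ 2 / T ^ 2) := by
        rw [mul_assoc, ← Real.exp_add]
        ring_nf
    _ ≤ _ := by
        refine mul_le_mul_of_nonneg_left (Real.exp_le_exp.2 ?_) (by positivity)
        have : 0 ≤ (T / 2 - x / T) ^ 2 := sq_nonneg _
        have e : (T / 2 - x / T) ^ 2 = T ^ 2 / 4 - x + x ^ 2 / T ^ 2 := by
          field_simp
          ring
        rw [e] at this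
        linarith

theorem pg_bound (k : ℕ) {T C : ℝ} (hT : 0 < T) (hC : 0 ≤ C) : ∃ B : ℝ, 0 ≤ B ∧ ∀ x : ℝ, 0 ≤ x →
    C * (1 + x) ^ k * Real.exp (-(x ^ 2 / T ^ 2)) ≤ B / (1 + x) ^ 2 := by
  refine ⟨C * ((k + 2).factorial * Real.exp (1 + T ^ 2 / 4)), by positivity, fun x hx => ?_⟩
  rw [le_div_iff₀ (by positivity)]
  have h := mul_le_mul_of_nonneg_left (pg_le (k + 2) hT hx) hC
  calc C * (1 + x) ^ k * Real.exp (-(x ^ 2 / T ^ 2)) * (1 + x) ^ 2 =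
      C * ((1 + x) ^ (k + 2) * Real.exp (-(x ^ 2 / T ^ 2))) := by ring
    _ ≤ _ := h

theorem inv_sq_int : Integrable (fun y : ℝ => ((1 + |y|) ^ 2)⁻¹) := Pool.Agent.W182.KO.one_add_inv_sq_int

/-- continuity on a vertical line -/
theorem line_cont {f : ℂ → ℂ} {x : ℝ} (hd : ∀ y : ℝ, DifferentiableAt ℂ f ((x : ℂ) + y * I)) :
    Continuous (fun y : ℝ => f ((x : ℂ) + y * I)) := by
  rw [continuous_iff_continuousAt]
  intro y
  exact ContinuousAt.comp (f := fun y : ℝ => ((x : ℂ) + y * I)) (hd y).continuousAt (by fun_prop)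

/-- moving a vertical line: functions of size polynomial times Gaussian -/
theorem shiftG {f : ℂ → ℂ} {a b C T : ℝ} {k : ℕ} (hab : a ≤ b) (hT : 0 < T) (hC : 0 ≤ C)
    (hd : ∀ s : ℂ, a ≤ s.re → s.re ≤ b → DifferentiableAt ℂ f s)
    (hB : ∀ s : ℂ, a ≤ s.re → s.re ≤ b →
      ‖f s‖ ≤ C * (1 + |s.im|) ^ k * Real.exp (-(s.im ^ 2 / T ^ 2))) :
    ∫ y : ℝ, f ((a : ℂ) + y * I) = ∫ y : ℝ, f ((b : ℂ) + y * I) := by
  obtain ⟨B, hB0, h⟩ := pg_bound k hT hC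
  refine Pool.Agent.W182.KO.strip_shift hab hB0 hd fun s h1 h2 => (hB s h1 h2).trans ?_
  have := h |s.im| (abs_nonneg _)
  rwa [sq_abs] at this

/-- integrability on a vertical line -/
theorem intG {f : ℂ → ℂ} {x C T : ℝ} {k : ℕ} (hT : 0 < T) (hC : 0 ≤ C)
    (hd : ∀ y : ℝ, DifferentiableAt ℂ f ((x : ℂ) + y * I))
    (hB : ∀ y : ℝ, ‖f ((x : ℂ) + y * I)‖ ≤ C * (1 + |y|) ^ k * Real.exp (-(y ^ 2 / T ^ 2))) :
    Integrable (fun y : ℝ => f ((x : ℂ) + y * I)) := by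
  obtain ⟨B, hB0, h⟩ := pg_bound k hT hC
  refine (inv_sq_int.const_mul B).mono' (line_cont hd).aestronglyMeasurable
    (Eventually.of_forall fun y => (hB y).trans ?_)
  have := h |y| (abs_nonneg _)
  rw [sq_abs] at this
  rwa [← div_eq_mul_inv]

/-! ## The weight -/

theorem exp_re (T σ : ℝ) (s : ℂ) : ‖cexp ((s - (σ : ℂ)) ^ 2 / (T : ℂ) ^ 2)‖ =
    Real.exp (((s.re - σ) ^ 2 - s.im ^ 2) / T ^ 2) := by
  rw [Complex.norm_exp]
  congr 1
  have e : ((s - (σ : ℂ)) ^ 2 / (T : ℂ) ^ 2) = ((s - (σ : ℂ)) ^ 2) * (((1 / T ^ 2 : ℝ)) : ℂ) := by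
    push_cast
    ring
  rw [e, re_mul_ofReal, sq, mul_re]
  simp only [sub_re, ofReal_re, sub_im, ofReal_im, sub_zero]
  ring

theorem W_diff (P : Polynomial ℝ) (T σ : ℝ) : Differentiable ℂ (W P T σ) := by
  unfold W
  have h1 : Differentiable ℂ (fun s : ℂ => cexp ((s - (σ : ℂ)) ^ 2 / (T : ℂ) ^ 2)) := by fun_prop
  exact ((Polynomial.differentiable _).comp h1).mul h1

theorem W_line (P : Polynomial ℝ) (T σ t : ℝ) : W P T σ ((σ : ℂ) + t * I) = ((ph P (t / T) : ℝ) : ℂ) := by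
  unfold W ph
  have e : (((σ : ℂ) + t * I - (σ : ℂ)) ^ 2 / (T : ℂ) ^ 2) = ((-(t / T) ^ 2 : ℝ) : ℂ) := by
    push_cast
    rw [show ((σ : ℂ) + t * I - (σ : ℂ)) = t * I by ring, mul_pow, I_sq]
    ring
  rw [e, ← ofReal_exp, Polynomial.eval_map_algebraMap, ← Complex.coe_algebraMap,
    Polynomial.aeval_algebraMap_apply, Complex.coe_algebraMap, Polynomial.coe_aeval_eq_eval, ofReal_mul]

theorem ln_re (δ t : ℝ) : (ln δ t).re = 1 / 2 + δ := by
  unfold ln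
  simp

theorem ln_im (δ t : ℝ) : (ln δ t).im = t := by
  unfold ln
  simp

theorem W_ln (P : Polynomial ℝ) (T δ t : ℝ) : W P T (1 / 2 + δ) (ln δ t) = ((ph P (t / T) : ℝ) : ℂ) :=
  W_line P T (1 / 2 + δ) t

/-- size of the weight -/
theorem W_bd (P : Polynomial ℝ) : ∃ C : ℝ, 0 < C ∧ ∀ T σ : ℝ, 1 ≤ T → ∀ s : ℂ, |s.re - σ| ≤ 3 →
    ‖W P T σ s‖ ≤ C * Real.exp (-(s.im ^ 2 / T ^ 2)) := by
  refine ⟨Real.exp 9 * (1 + ∑ i ∈ P.support, |P.coeff i| * Real.exp 9 ^ i), by positivity, ?_⟩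
  intro T σ hT s hs
  have hy : ‖cexp ((s - (σ : ℂ)) ^ 2 / (T : ℂ) ^ 2)‖ ≤ Real.exp 9 * Real.exp (-(s.im ^ 2 / T ^ 2)) := by
    rw [exp_re, ← Real.exp_add]
    apply Real.exp_le_exp.2
    have h1 : (s.re - σ) ^ 2 ≤ 9 := by
      have := abs_le.1 hs
      nlinarith
    have hT2 : 1 ≤ T ^ 2 := one_le_pow₀ hT
    have h2 : (s.re - σ) ^ 2 / T ^ 2 ≤ 9 := (div_le_self (sq_nonneg _) hT2).trans h1
    rw [sub_div]
    linarith
  have hy1 : ‖cexp ((s - (σ : ℂ)) ^ 2 / (T : ℂ) ^ 2)‖ ≤ Real.exp 9 := by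
    refine hy.trans ?_
    have : Real.exp (-(s.im ^ 2 / T ^ 2)) ≤ 1 := Real.exp_le_one_iff.2 (by
      have : 0 ≤ s.im ^ 2 / T ^ 2 := by positivity
      linarith)
    nlinarith [Real.exp_pos 9]
  set z := cexp ((s - (σ : ℂ)) ^ 2 / (T : ℂ) ^ 2) with hz
  have hP : ‖(P.map (algebraMap ℝ ℂ)).eval z‖ ≤ 1 + ∑ i ∈ P.support, |P.coeff i| * Real.exp 9 ^ i := by
    rw [Polynomial.eval_map, Polynomial.eval₂_eq_sum, Polynomial.sum]
    refine (norm_sum_le _ _).trans ?_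
    have : ∑ i ∈ P.support, ‖(algebraMap ℝ ℂ) (P.coeff i) * z ^ i‖ ≤
        ∑ i ∈ P.support, |P.coeff i| * Real.exp 9 ^ i := by
      refine Finset.sum_le_sum fun i _ => ?_
      rw [norm_mul, norm_pow]
      refine mul_le_mul (le_of_eq (by simp)) (pow_le_pow_left₀ (norm_nonneg _) hy1 _) (by positivity)
        (abs_nonneg _)
    linarith
  unfold W
  rw [norm_mul]
  calc _ ≤ (1 + ∑ i ∈ P.support, |P.coeff i| * Real.exp 9 ^ i) *
        (Real.exp 9 * Real.exp (-(s.im ^ 2 / T ^ 2))) :=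
        mul_le_mul hP hy (norm_nonneg _) (by positivity)
    _ = _ := by ring

/-! ## `G`, `xi`, `iz` -/

theorem G_diff : Differentiable ℂ G := Pool.Agent.H448R2.GC.zeta_one_entire

theorem G_one : G 1 = 1 := Function.update_self ..

theorem G_eq {s : ℂ} (hs : s ≠ 1) : G s = (s - 1) * riemannZeta s := Function.update_of_ne hs ..

/-- growth of `G` in a strip -/
theorem G_growth : ∃ (C : ℝ) (k : ℕ), 0 < C ∧ ∀ s : ℂ, -1 ≤ s.re → s.re ≤ 3 →
    ‖G s‖ ≤ C * (1 + |s.im|) ^ k := by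
  obtain ⟨C, k, hC, h⟩ := Pool.Agent.H448R2.GC.zeta_one_growth 1
  exact ⟨C, k, hC, h⟩

theorem xi_two (s : ℂ) : xi s = 2 * Pool.Agent.Y922.AP.xi s := by
  unfold xi Pool.Agent.Y922.AP.xi
  ring

theorem xi_diff : Differentiable ℂ xi := by
  have : xi = fun s => 2 * Pool.Agent.Y922.AP.xi s := funext xi_two
  rw [this]
  exact Pool.Agent.Y907.AP.xi_diff.const_mul 2

theorem xi_sub (s : ℂ) : xi (1 - s) = xi s := by
  rw [xi_two, xi_two, Pool.Agent.Y907.AP.xi_sub]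

theorem xi_conj (s : ℂ) : xi (starRingEnd ℂ s) = starRingEnd ℂ (xi s) := by
  rw [xi_two, xi_two, Pool.Agent.Y907.AP.xi_conj, map_mul, map_ofNat]

theorem xi_eq {s : ℂ} (hs : 0 < s.re) : xi s = s * G s * Gammaℝ s := by
  have h0 : s ≠ 0 := by
    rintro rfl
    simp at hs
  by_cases h1 : s = 1
  · rw [h1, G_one, Gammaℝ_one]
    unfold xi
    ring
  have h1' : s - 1 ≠ 0 := sub_ne_zero.2 h1
  have h1'' : (1 : ℂ) - s ≠ 0 := sub_ne_zero.2 (Ne.symm h1)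
  have hg : Gammaℝ s ≠ 0 := Gammaℝ_ne_zero_of_re_pos hs
  rw [G_eq h1, riemannZeta_def_of_ne_zero h0, completedRiemannZeta_eq]
  unfold xi
  field_simp
  ring

theorem xi_ne {σ : ℝ} (h : Good σ) (hσ : 0 < σ) {s : ℂ} (h1 : σ ≤ s.re) (h2 : s.re ≤ 3) : xi s ≠ 0 := by
  obtain ⟨C, k, -, hG⟩ := h
  rw [xi_eq (by linarith)]
  have h0 : s ≠ 0 := by
    rintro rfl
    simp at h1
    linarith
  exact mul_ne_zero (mul_ne_zero h0 (hG s h1 h2).1) (Gammaℝ_ne_zero_of_re_pos (by linarith))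

theorem iz_diff {σ : ℝ} (h : Good σ) {s : ℂ} (h1 : σ ≤ s.re) (h2 : s.re ≤ 3) :
    DifferentiableAt ℂ iz s := by
  obtain ⟨C, k, -, hG⟩ := h
  unfold iz
  exact ((differentiableAt_id).sub_const 1).div (G_diff s) (hG s h1 h2).1

theorem norm_le_re_im {s : ℂ} (h0 : 0 ≤ s.re) (h2 : s.re ≤ 3) : ‖s‖ ≤ 3 * (1 + |s.im|) := by
  have h := Complex.norm_le_abs_re_add_abs_im s
  rw [abs_of_nonneg h0] at h
  have := abs_nonneg s.im
  linarith

theorem iz_bd {σ : ℝ} (h : Good σ) (hσ : 0 < σ) : ∃ (C : ℝ) (k : ℕ), 0 < C ∧ ∀ s : ℂ, σ ≤ s.re →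
    s.re ≤ 3 → ‖iz s‖ ≤ C * (1 + |s.im|) ^ k := by
  obtain ⟨C, k, hC, hG⟩ := h
  refine ⟨4 * C, k + 1, by positivity, fun s h1 h2 => ?_⟩
  unfold iz
  rw [div_eq_mul_inv, norm_mul]
  have h3 : ‖s - 1‖ ≤ 4 * (1 + |s.im|) := by
    have h4 := norm_sub_le s 1
    rw [norm_one] at h4
    have h5 := norm_le_re_im (by linarith) h2
    have := abs_nonneg s.im
    linarith
  have hi := abs_nonneg s.im
  calc ‖s - 1‖ * ‖(G s)⁻¹‖ ≤ (4 * (1 + |s.im|)) * (C * (1 + |s.im|) ^ k) :=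
        mul_le_mul h3 (hG s h1 h2).2 (norm_nonneg _) (by positivity)
    _ = _ := by ring

/-- `iz s = ∑ μ(n) n^(-s)` for `1 < Re s` -/
theorem iz_sum {s : ℂ} (hs : 1 < s.re) :
    HasSum (fun n : ℕ => (mu n : ℂ) * (n : ℂ) ^ (-s)) (iz s) := by
  have h1 : s ≠ 1 := by
    rintro rfl
    simp at hs
  have hz : riemannZeta s ≠ 0 := riemannZeta_ne_zero_of_one_lt_re hs
  have h2 : iz s = LSeries (fun n => ((ArithmeticFunction.moebius n : ℤ) : ℂ)) s := by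
    have h3 := ArithmeticFunction.LSeries_zeta_mul_Lseries_moebius hs
    rw [ArithmeticFunction.LSeries_zeta_eq_riemannZeta hs] at h3
    unfold iz
    rw [G_eq h1, div_eq_iff (mul_ne_zero (sub_ne_zero.2 h1) hz)]
    linear_combination (-(s - 1)) * h3
  rw [h2]
  have h4 : LSeriesSummable (fun n => ((ArithmeticFunction.moebius n : ℤ) : ℂ)) s :=
    ArithmeticFunction.LSeriesSummable_moebius_iff.2 hs
  have h5 := h4.LSeriesHasSum
  unfold LSeriesHasSum at h5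
  refine h5.congr_fun fun n => ?_
  by_cases hn : n = 0
  · rw [hn, LSeries.term_zero]
    unfold mu
    simp
  · rw [LSeries.term_of_ne_zero hn, cpow_neg]
    unfold mu
    rw [div_eq_mul_inv]
    push_cast
    rfl

/-! ## The Dirichlet polynomial -/

theorem A_diff (N : ℕ) : Differentiable ℂ (A N) := by
  unfold A
  refine Differentiable.fun_sum fun n hn => ?_
  have hn0 : (n : ℂ) ≠ 0 := by
    have := (Finset.mem_Icc.1 hn).1
    exact_mod_cast (by omega : n ≠ 0)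
  exact (Differentiable.const_cpow (by fun_prop) (Or.inl hn0)).const_mul _

theorem mu_abs (n : ℕ) : |mu n| ≤ 1 := by
  unfold mu
  have h := ArithmeticFunction.abs_moebius_le_one (n := n)
  exact_mod_cast h

theorem norm_cpow_nat {n : ℕ} (hn : 1 ≤ n) (s : ℂ) : ‖(n : ℂ) ^ s‖ = (n : ℝ) ^ s.re :=
  Complex.norm_natCast_cpow_of_pos hn s

theorem A_bd (N : ℕ) : ∃ C : ℝ, 0 < C ∧ ∀ s : ℂ, -3 ≤ s.re → s.re ≤ 3 → ‖A N s‖ ≤ C := by
  refine ⟨1 + ∑ n ∈ Finset.Icc 1 N, (n : ℝ) ^ (3 : ℝ), by positivity, fun s h1 h2 => ?_⟩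
  unfold A
  refine (norm_sum_le _ _).trans ?_
  have : ∑ n ∈ Finset.Icc 1 N, ‖(mu n : ℂ) * (n : ℂ) ^ (-s)‖ ≤ ∑ n ∈ Finset.Icc 1 N, (n : ℝ) ^ (3 : ℝ) := by
    refine Finset.sum_le_sum fun n hn => ?_
    have hn1 := (Finset.mem_Icc.1 hn).1
    rw [norm_mul, norm_cpow_nat hn1, norm_real, Real.norm_eq_abs]
    calc |mu n| * (n : ℝ) ^ (-s).re ≤ 1 * (n : ℝ) ^ (3 : ℝ) := by
          refine mul_le_mul (mu_abs n) ?_ (by positivity) zero_le_one
          refine Real.rpow_le_rpow_of_exponent_le (by exact_mod_cast hn1) ?_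
          rw [neg_re]
          linarith
      _ = _ := one_mul _
  linarith

theorem A_conj (N : ℕ) (s : ℂ) : (starRingEnd ℂ) (A N s) = A N ((starRingEnd ℂ) s) := by
  unfold A
  rw [map_sum]
  refine Finset.sum_congr rfl fun n hn => ?_
  rw [map_mul, conj_ofReal]
  congr 1
  have harg : ((n : ℂ)).arg ≠ Real.pi := by
    rw [Complex.natCast_arg]
    exact Real.pi_pos.ne
  have h := Complex.cpow_conj (n : ℂ) (-s) harg
  rw [Complex.conj_natCast] at h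
  rw [← h, map_neg]

theorem ln_conj (δ t : ℝ) : (starRingEnd ℂ) (ln δ t) = ((1 + 2 * δ : ℝ) : ℂ) - ln δ t := by
  unfold ln
  rw [map_add, map_mul, conj_ofReal, conj_ofReal, conj_I]
  push_cast
  ring

theorem ln_neg (δ t : ℝ) : ln δ (-t) = (starRingEnd ℂ) (ln δ t) := by
  unfold ln
  rw [map_add, map_mul, conj_ofReal, conj_ofReal, conj_I]
  push_cast
  ring

/-! ## The phase `b` -/

theorem b_diff {δ : ℝ} (hδ : 0 < δ) (h : Good (1 / 2 + δ)) {s : ℂ} (h1 : 1 / 2 + δ ≤ s.re)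
    (h2 : s.re ≤ 3) : DifferentiableAt ℂ (b δ) s := by
  unfold b
  have hx : DifferentiableAt ℂ (fun s : ℂ => xi (s - ((2 * δ : ℝ) : ℂ))) s :=
    DifferentiableAt.comp (g := xi) s (xi_diff _) (by fun_prop)
  exact hx.div (xi_diff s) (xi_ne h (by linarith) h1 h2)

theorem b_norm {δ : ℝ} (hδ : 0 < δ) (hδ1 : δ ≤ 1) (h : Good (1 / 2 + δ)) (t : ℝ) : ‖b δ (ln δ t)‖ = 1 := by
  have hx := xi_ne h (by linarith) (s := ln δ t) (ln_re δ t).ge (by rw [ln_re]; linarith)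
  have e : ln δ t - ((2 * δ : ℝ) : ℂ) = 1 - (starRingEnd ℂ) (ln δ t) := by
    rw [ln_conj]
    push_cast
    ring
  unfold b
  rw [e, xi_sub, xi_conj, norm_div, RCLike.norm_conj, div_self (norm_ne_zero_iff.2 hx)]

/-- the formula for `b` in terms of the zeta function -/
theorem b_eq {δ : ℝ} (hδ : 0 < δ) (hδ1 : δ ≤ 1 / 8) {s : ℂ} (h1 : 1 / 2 + δ ≤ s.re) :
    b δ s = (s - ((2 * δ : ℝ) : ℂ)) / s * R δ s * (G (s - ((2 * δ : ℝ) : ℂ)) / G s) := by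
  have hr : (s - ((2 * δ : ℝ) : ℂ)).re = s.re - 2 * δ := by
    rw [sub_re, ofReal_re]
  unfold b R
  rw [xi_eq (s := s) (by linarith), xi_eq (s := s - ((2 * δ : ℝ) : ℂ)) (by rw [hr]; linarith)]
  have h0 : s ≠ 0 := by
    rintro rfl
    simp at h1
    linarith
  have hg : Gammaℝ s ≠ 0 := Gammaℝ_ne_zero_of_re_pos (by linarith)
  rw [div_mul_div_comm, div_mul_div_comm]
  congr 1 <;> ring

/-- polynomial bound for `b` -/
theorem b_bd (hR : S_R) {δ : ℝ} (hδ : 0 < δ) (hδ1 : δ ≤ 1 / 8) (h : Good (1 / 2 + δ)) :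
    ∃ (C : ℝ) (k : ℕ), 0 < C ∧ ∀ s : ℂ, 1 / 2 + δ ≤ s.re → s.re ≤ 3 →
      ‖b δ s‖ ≤ C * (1 + |s.im|) ^ k := by
  obtain ⟨CR, hCR, hR⟩ := hR
  obtain ⟨CG, kG, hCG, hG⟩ := G_growth
  obtain ⟨C, k, hC, hi⟩ := h
  refine ⟨2 * CR * CG * C, kG + k, by positivity, fun s h1 h2 => ?_⟩
  rw [b_eq hδ hδ1 h1, norm_mul, norm_mul, div_eq_mul_inv (G _), norm_mul]
  have hr : (s - ((2 * δ : ℝ) : ℂ)).re = s.re - 2 * δ := by
    rw [sub_re, ofReal_re]
  have him : (s - ((2 * δ : ℝ) : ℂ)).im = s.im := by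
    rw [sub_im, ofReal_im, sub_zero]
  have hs0 : 0 < ‖s‖ := by
    have := (Complex.abs_re_le_norm s)
    have h3 := le_abs_self s.re
    linarith
  have e1 : ‖(s - ((2 * δ : ℝ) : ℂ)) / s‖ ≤ 2 := by
    rw [norm_div, div_le_iff₀ hs0]
    have h3 := norm_sub_le s ((2 * δ : ℝ) : ℂ)
    rw [norm_real, Real.norm_eq_abs, abs_of_pos (by linarith)] at h3
    have h4 := (Complex.abs_re_le_norm s)
    have h5 := le_abs_self s.re
    linarith
  have e2 := ((hR δ hδ hδ1).1 s h1 h2).2.1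
  have e3 := hG (s - ((2 * δ : ℝ) : ℂ)) (by rw [hr]; linarith) (by rw [hr]; linarith)
  rw [him] at e3
  have e4 := (hi s h1 h2).2
  have hi0 := abs_nonneg s.im
  calc _ ≤ (2 * CR) * ((CG * (1 + |s.im|) ^ kG) * (C * (1 + |s.im|) ^ k)) := by
        refine mul_le_mul (mul_le_mul e1 e2 (norm_nonneg _) (by norm_num))
          (mul_le_mul e3 e4 (norm_nonneg _) (by positivity)) (by positivity) (by positivity)
    _ = _ := by ring

end Pool.Agent.H101.HB
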