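import Pool.Agent.H101.HB.K2

/-!
# Project HB-uniform (helper101): assembly of `S_CORE`
-/

set_option autoImplicit false

open Complex MeasureTheory Filter Topology Set

namespace Pool.Agent.H101.HB

open Pool.Agent.Y763.HB

theorem ph_bd (P : Polynomial ℝ) : ∃ C : ℝ, 0 < C ∧ ∀ T : ℝ, 1 ≤ T → ∀ t : ℝ,
    |ph P (t / T)| ≤ C * Real.exp (-(t ^ 2 / T ^ 2)) := by
  obtain ⟨C, hC, h⟩ := W_bd P
  refine ⟨C, hC, fun T hT t => ?_⟩
  have h1 := h T 0 hT ((0 : ℝ) + t * I) (by simp)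
  have h2 := W_line P T 0 t
  rw [h2, norm_real, Real.norm_eq_abs] at h1
  simpa using h1

theorem ph_cont (P : Polynomial ℝ) (T : ℝ) : Continuous (fun t : ℝ => ph P (t / T)) := by
  unfold ph
  have : Continuous (fun y : ℝ => P.eval y) := P.continuous
  fun_prop

theorem int_poly (P : Polynomial ℝ) {T C : ℝ} {k : ℕ} (hT : 1 ≤ T) (hC : 0 ≤ C) {φ : ℝ → ℂ}
    (hc : Continuous φ) (hb : ∀ t, ‖φ t‖ ≤ C * (1 + |t|) ^ k) :
    Integrable (fun t : ℝ => φ t * ((ph P (t / T) : ℝ) : ℂ)) := by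
  obtain ⟨Cp, hCp, hp⟩ := ph_bd P
  obtain ⟨B, hB0, h⟩ := pg_bound k (T := T) (C := C * Cp) (by linarith) (by positivity)
  refine (inv_sq_int.const_mul B).mono' ?_ (Eventually.of_forall fun t => ?_)
  · exact (hc.mul (continuous_ofReal.comp (ph_cont P T))).aestronglyMeasurable
  · have h1 := h |t| (abs_nonneg _)
    rw [sq_abs] at h1
    rw [norm_mul, norm_real, Real.norm_eq_abs]
    calc ‖φ t‖ * |ph P (t / T)| ≤ (C * (1 + |t|) ^ k) * (Cp * Real.exp (-(t ^ 2 / T ^ 2))) :=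
          mul_le_mul (hb t) (hp T hT t) (abs_nonneg _) (by positivity)
      _ = C * Cp * (1 + |t|) ^ k * Real.exp (-(t ^ 2 / T ^ 2)) := by ring
      _ ≤ B / (1 + |t|) ^ 2 := h1
      _ = B * ((1 + |t|) ^ 2)⁻¹ := div_eq_mul_inv _ _

theorem int_polyR (P : Polynomial ℝ) {T C : ℝ} {k : ℕ} (hT : 1 ≤ T) (hC : 0 ≤ C) {φ : ℝ → ℝ}
    (hc : Continuous φ) (hb : ∀ t, |φ t| ≤ C * (1 + |t|) ^ k) :
    Integrable (fun t : ℝ => φ t * ph P (t / T)) := by
  have h := int_poly P (k := k) hT hC (φ := fun t => ((φ t : ℝ) : ℂ)) (continuous_ofReal.comp hc)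
    (fun t => by rw [norm_real, Real.norm_eq_abs]; exact hb t)
  exact h.re.congr (Eventually.of_forall fun t => by simp)

/-- continuity of a function on the line -/
theorem ln_cont {f : ℂ → ℂ} {δ : ℝ} (hd : ∀ t : ℝ, DifferentiableAt ℂ f (ln δ t)) :
    Continuous (fun t : ℝ => f (ln δ t)) :=
  line_cont (f := f) (x := 1 / 2 + δ) hd

theorem pw (F g : ℂ) (l : ℝ) : 2 * l * (F * (starRingEnd ℂ) g).re - l ^ 2 * ‖g‖ ^ 2 ≤ ‖F‖ ^ 2 := by
  have h : 0 ≤ ‖F - (l : ℂ) * g‖ ^ 2 := by positivity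
  have e : ‖F - (l : ℂ) * g‖ ^ 2 = ‖F‖ ^ 2 - 2 * l * (F * (starRingEnd ℂ) g).re + l ^ 2 * ‖g‖ ^ 2 := by
    rw [← Complex.normSq_eq_norm_sq, ← Complex.normSq_eq_norm_sq, ← Complex.normSq_eq_norm_sq,
      Complex.normSq_sub, map_mul (starRingEnd ℂ), conj_ofReal, map_mul normSq, normSq_ofReal]
    have : (F * ((l : ℂ) * (starRingEnd ℂ) g)).re = l * (F * (starRingEnd ℂ) g).re := by
      rw [← mul_assoc, mul_comm F, mul_assoc, re_ofReal_mul]
    rw [this]
    ring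
  linarith

/-- `Sd` from above -/
theorem Sd_le (N : ℕ) {δ : ℝ} (hδ : 0 ≤ δ) : Sd N δ ≤ D1 N := by
  unfold Sd D1
  refine Finset.sum_le_sum fun n hn => ?_
  have hn1 : 1 ≤ n := (Finset.mem_Icc.1 hn).1
  have hn1' : (1 : ℝ) ≤ n := by exact_mod_cast hn1
  unfold mu
  rw [div_eq_mul_inv]
  refine mul_le_mul_of_nonneg_left ?_ (sq_nonneg _)
  rw [← Real.rpow_neg_one]
  exact Real.rpow_le_rpow_of_exponent_le hn1' (by linarith)

/-- `Sd` from below -/
theorem Sd_ge (N : ℕ) {δ T : ℝ} (hδ : 0 ≤ δ) (hN : (N : ℝ) ≤ T) :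
    Real.exp (-(2 * δ * Real.log T)) * D1 N ≤ Sd N δ := by
  unfold Sd D1
  rw [Finset.mul_sum]
  refine Finset.sum_le_sum fun n hn => ?_
  have hn1 : 1 ≤ n := (Finset.mem_Icc.1 hn).1
  have hn1' : (1 : ℝ) ≤ n := by exact_mod_cast hn1
  have hn0 : (0 : ℝ) < n := by linarith
  have hnT : (n : ℝ) ≤ T := le_trans (by exact_mod_cast (Finset.mem_Icc.1 hn).2) hN
  unfold mu
  rw [div_eq_mul_inv, mul_left_comm]
  refine mul_le_mul_of_nonneg_left ?_ (sq_nonneg _)
  rw [Real.rpow_def_of_pos hn0, ← Real.exp_log (inv_pos.2 hn0), Real.log_inv, ← Real.exp_add]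
  apply Real.exp_le_exp.2
  have hl : Real.log n ≤ Real.log T := Real.log_le_log hn0 hnT
  have hl0 : 0 ≤ Real.log n := Real.log_nonneg hn1'
  nlinarith

theorem lin4 {f1 f2 f3 f4 : ℝ → ℝ} (h1 : Integrable f1) (h2 : Integrable f2) (h3 : Integrable f3)
    (h4 : Integrable f4) (a c : ℝ) :
    Integrable (fun t => a * (f1 t - f2 t) - c * (2 * f3 t + 2 * f4 t)) ∧
    ∫ t, (a * (f1 t - f2 t) - c * (2 * f3 t + 2 * f4 t)) =
      a * ((∫ t, f1 t) - ∫ t, f2 t) - c * (2 * (∫ t, f3 t) + 2 * ∫ t, f4 t) := by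
  have g1 : Integrable (fun t => a * (f1 t - f2 t)) := (h1.sub h2).const_mul a
  have g2 : Integrable (fun t => 2 * f3 t + 2 * f4 t) := (h3.const_mul 2).add (h4.const_mul 2)
  have g3 : Integrable (fun t => c * (2 * f3 t + 2 * f4 t)) := g2.const_mul c
  refine ⟨g1.sub g3, ?_⟩
  rw [integral_sub g1 g3, integral_const_mul, integral_const_mul, integral_sub h1 h2,
    integral_add (h3.const_mul 2) (h4.const_mul 2), integral_const_mul, integral_const_mul]

/-- the Cauchy-Schwarz step -/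
theorem cs_step {P : Polynomial ℝ} (hP : ∀ y ∈ Icc (0:ℝ) 1, 0 ≤ P.eval y) (hR : S_R) {T δ : ℝ} (hT : 1 ≤ T)
    (hδ : 0 < δ) (hδ1 : δ ≤ 1 / 8) (hG : Good (1 / 2 + δ)) (N : ℕ) (l : ℝ) :
    2 * l * ((∫ t : ℝ, iz (ln δ t) * (starRingEnd ℂ) (A N (ln δ t)) * ((ph P (t / T) : ℝ) : ℂ)).re -
      (∫ t : ℝ, iz (ln δ t) * (starRingEnd ℂ) (A N (ln δ t) * b δ (ln δ t)) *
        ((ph P (t / T) : ℝ) : ℂ)).re) -
    l ^ 2 * (2 * (∫ t : ℝ, ‖A N (ln δ t)‖ ^ 2 * (1 - (R δ (ln δ t)).re) * ph P (t / T)) +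
      2 * ∫ t : ℝ, ‖A N (ln δ t)‖ ^ 2 * ((R δ (ln δ t)).re - (b δ (ln δ t)).re) * ph P (t / T)) ≤
    ∫ t : ℝ, ‖iz (ln δ t)‖ ^ 2 * ph P (t / T) := by
  have hσ : (0:ℝ) < 1 / 2 + δ := by linarith
  have hr1 : ∀ t : ℝ, 1 / 2 + δ ≤ (ln δ t).re := fun t => (ln_re δ t).ge
  have hr2 : ∀ t : ℝ, (ln δ t).re ≤ 3 := fun t => by rw [ln_re]; linarith
  obtain ⟨CR, hCR, hR0⟩ := hR
  have hRs := (hR0 δ hδ hδ1).1
  obtain ⟨Ci, ki, hCi, hi⟩ := iz_bd hG hσ
  obtain ⟨CA, hCA, hA⟩ := A_bd N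
  have c1 : Continuous (fun t : ℝ => iz (ln δ t)) := ln_cont fun t => iz_diff hG (hr1 t) (hr2 t)
  have c2 : Continuous (fun t : ℝ => A N (ln δ t)) := ln_cont fun t => A_diff N _
  have c3 : Continuous (fun t : ℝ => b δ (ln δ t)) := ln_cont fun t => b_diff hδ hG (hr1 t) (hr2 t)
  have c4 : Continuous (fun t : ℝ => R δ (ln δ t)) := ln_cont fun t => (hRs _ (hr1 t) (hr2 t)).1
  have n1 : ∀ t : ℝ, ‖iz (ln δ t)‖ ≤ Ci * (1 + |t|) ^ ki := fun t => by
    have := hi _ (hr1 t) (hr2 t)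
    rwa [ln_im] at this
  have n2 : ∀ t : ℝ, ‖A N (ln δ t)‖ ≤ CA := fun t => hA _ (by rw [ln_re]; linarith) (hr2 t)
  have n3 : ∀ t : ℝ, ‖b δ (ln δ t)‖ = 1 := fun t => b_norm hδ (by linarith) hG t
  have n4 : ∀ t : ℝ, ‖R δ (ln δ t)‖ ≤ CR := fun t => (hRs _ (hr1 t) (hr2 t)).2.1
  have i1 : Integrable (fun t : ℝ => iz (ln δ t) * (starRingEnd ℂ) (A N (ln δ t)) *
      ((ph P (t / T) : ℝ) : ℂ)) := by
    refine int_poly P (C := Ci * CA) (k := ki) hT (by positivity) (c1.mul (continuous_conj.comp c2))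
      fun t => ?_
    rw [norm_mul, RCLike.norm_conj]
    calc _ ≤ (Ci * (1 + |t|) ^ ki) * CA := mul_le_mul (n1 t) (n2 t) (norm_nonneg _) (by positivity)
      _ = _ := by ring
  have i2 : Integrable (fun t : ℝ => iz (ln δ t) * (starRingEnd ℂ) (A N (ln δ t) * b δ (ln δ t)) *
      ((ph P (t / T) : ℝ) : ℂ)) := by
    refine int_poly P (C := Ci * CA) (k := ki) hT (by positivity)
      (c1.mul (continuous_conj.comp (c2.mul c3))) fun t => ?_
    rw [norm_mul, RCLike.norm_conj, norm_mul, n3 t, mul_one]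
    calc _ ≤ (Ci * (1 + |t|) ^ ki) * CA := mul_le_mul (n1 t) (n2 t) (norm_nonneg _) (by positivity)
      _ = _ := by ring
  have i3 : Integrable (fun t : ℝ => ‖A N (ln δ t)‖ ^ 2 * (1 - (R δ (ln δ t)).re) * ph P (t / T)) := by
    refine int_polyR P (C := CA ^ 2 * (1 + CR)) (k := 0) hT (by positivity)
      ((c2.norm.pow 2).mul (continuous_const.sub (continuous_re.comp c4))) fun t => ?_
    rw [abs_mul, abs_pow, abs_norm, pow_zero, mul_one]
    refine mul_le_mul (pow_le_pow_left₀ (norm_nonneg _) (n2 t) 2) ?_ (abs_nonneg _) (by positivity)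
    have := (Complex.abs_re_le_norm (R δ (ln δ t))).trans (n4 t)
    have h2 := abs_sub (1 : ℝ) (R δ (ln δ t)).re
    rw [abs_one] at h2
    linarith
  have i4 : Integrable (fun t : ℝ => ‖A N (ln δ t)‖ ^ 2 * ((R δ (ln δ t)).re - (b δ (ln δ t)).re) *
      ph P (t / T)) := by
    refine int_polyR P (C := CA ^ 2 * (CR + 1)) (k := 0) hT (by positivity)
      ((c2.norm.pow 2).mul ((continuous_re.comp c4).sub (continuous_re.comp c3))) fun t => ?_
    rw [abs_mul, abs_pow, abs_norm, pow_zero, mul_one]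
    refine mul_le_mul (pow_le_pow_left₀ (norm_nonneg _) (n2 t) 2) ?_ (abs_nonneg _) (by positivity)
    have h3 := (Complex.abs_re_le_norm (R δ (ln δ t))).trans (n4 t)
    have h4 := (Complex.abs_re_le_norm (b δ (ln δ t))).trans (n3 t).le
    have h2 := abs_sub (R δ (ln δ t)).re (b δ (ln δ t)).re
    linarith
  have i5 : Integrable (fun t : ℝ => ‖iz (ln δ t)‖ ^ 2 * ph P (t / T)) := by
    refine int_polyR P (C := Ci ^ 2) (k := 2 * ki) hT (by positivity) (c1.norm.pow 2) fun t => ?_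
    rw [abs_pow, abs_norm]
    calc _ ≤ (Ci * (1 + |t|) ^ ki) ^ 2 := pow_le_pow_left₀ (norm_nonneg _) (n1 t) 2
      _ = _ := by rw [mul_pow, ← pow_mul, mul_comm ki 2]
  have r1 := i1.re
  have r2 := i2.re
  have e1 : (∫ t : ℝ, iz (ln δ t) * (starRingEnd ℂ) (A N (ln δ t)) * ((ph P (t / T) : ℝ) : ℂ)).re =
      ∫ t : ℝ, (iz (ln δ t) * (starRingEnd ℂ) (A N (ln δ t)) * ((ph P (t / T) : ℝ) : ℂ)).re :=
    (reCLM.integral_comp_comm i1).symm
  have e2 : (∫ t : ℝ, iz (ln δ t) * (starRingEnd ℂ) (A N (ln δ t) * b δ (ln δ t)) *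
      ((ph P (t / T) : ℝ) : ℂ)).re = ∫ t : ℝ, (iz (ln δ t) * (starRingEnd ℂ)
      (A N (ln δ t) * b δ (ln δ t)) * ((ph P (t / T) : ℝ) : ℂ)).re :=
    (reCLM.integral_comp_comm i2).symm
  rw [e1, e2]
  have i1' : Integrable (fun t : ℝ => (iz (ln δ t) * (starRingEnd ℂ) (A N (ln δ t)) *
    ((ph P (t / T) : ℝ) : ℂ)).re) := reCLM.integrable_comp i1
  have i2' : Integrable (fun t : ℝ => (iz (ln δ t) * (starRingEnd ℂ) (A N (ln δ t) * b δ (ln δ t)) *
    ((ph P (t / T) : ℝ) : ℂ)).re) := reCLM.integrable_comp i2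
  have key : 2 * l * ((∫ t : ℝ, (iz (ln δ t) * (starRingEnd ℂ) (A N (ln δ t)) *
      ((ph P (t / T) : ℝ) : ℂ)).re) - ∫ t : ℝ, (iz (ln δ t) * (starRingEnd ℂ)
      (A N (ln δ t) * b δ (ln δ t)) * ((ph P (t / T) : ℝ) : ℂ)).re) -
    l ^ 2 * (2 * (∫ t : ℝ, ‖A N (ln δ t)‖ ^ 2 * (1 - (R δ (ln δ t)).re) * ph P (t / T)) +
      2 * ∫ t : ℝ, ‖A N (ln δ t)‖ ^ 2 * ((R δ (ln δ t)).re - (b δ (ln δ t)).re) * ph P (t / T)) =
    ∫ t : ℝ, (2 * l * ((iz (ln δ t) * (starRingEnd ℂ) (A N (ln δ t)) * ((ph P (t / T) : ℝ) : ℂ)).re -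
      (iz (ln δ t) * (starRingEnd ℂ) (A N (ln δ t) * b δ (ln δ t)) * ((ph P (t / T) : ℝ) : ℂ)).re) -
      l ^ 2 * (2 * (‖A N (ln δ t)‖ ^ 2 * (1 - (R δ (ln δ t)).re) * ph P (t / T)) +
        2 * (‖A N (ln δ t)‖ ^ 2 * ((R δ (ln δ t)).re - (b δ (ln δ t)).re) * ph P (t / T)))) := by
    exact (lin4 i1' i2' i3 i4 (2 * l) (l ^ 2)).2.symm
  rw [key]
  refine integral_mono (lin4 i1' i2' i3 i4 (2 * l) (l ^ 2)).1 i5 fun t => ?_
  simp only
  have hp := ph_nonneg hP (t / T)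
  have hpw := pw (iz (ln δ t)) (A N (ln δ t) * (1 - b δ (ln δ t))) l
  have hnb : ‖1 - b δ (ln δ t)‖ ^ 2 = 2 - 2 * (b δ (ln δ t)).re := by
    rw [← Complex.normSq_eq_norm_sq, Complex.normSq_sub, Complex.normSq_one,
      Complex.normSq_eq_norm_sq, n3 t, one_mul, conj_re]
    ring
  rw [norm_mul, mul_pow, hnb] at hpw
  have hre : (iz (ln δ t) * (starRingEnd ℂ) (A N (ln δ t) * (1 - b δ (ln δ t)))).re =
      (iz (ln δ t) * (starRingEnd ℂ) (A N (ln δ t))).re -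
      (iz (ln δ t) * (starRingEnd ℂ) (A N (ln δ t) * b δ (ln δ t))).re := by
    rw [← sub_re]
    congr 1
    rw [mul_sub, mul_one, map_sub]
    ring
  rw [hre] at hpw
  have h2 := mul_le_mul_of_nonneg_right hpw hp
  rw [re_mul_ofReal, re_mul_ofReal]
  nlinarith [h2]

/-- the numerical step -/
theorem num_step {T L c a e δ lam I K1 K2 J : ℝ} (hT : 0 < T) (hL : 0 < L) (hc : 0 < c) (ha : 0 < a)
    (hδ : 0 < δ) (hlam : lam = 1 / (4 * δ * L))
    (hI : T * c * a * L * (1 - 5 * e) ≤ I)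
    (hK1 : K1 ≤ δ * (T * c * a * L ^ 2) * (1 + 4 * e)) (hK2 : K2 ≤ δ * (T * c * a * L ^ 2) * (1 + 6 * e))
    (hJ : 2 * lam * I - lam ^ 2 * (2 * K1 + 2 * K2) ≤ J) :
    (1 / 2 - 8 * e) * (T * c * a) ≤ 2 * δ * J - e * (T * c * a) / 2 := by
  have hlam0 : 0 < lam := by rw [hlam]; positivity
  have h1 : 2 * lam * (T * c * a * L * (1 - 5 * e)) ≤ 2 * lam * I :=
    mul_le_mul_of_nonneg_left hI (by positivity)
  have h2 : lam ^ 2 * (2 * K1 + 2 * K2) ≤ lam ^ 2 * (δ * (T * c * a * L ^ 2) * (4 + 20 * e)) := by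
    refine mul_le_mul_of_nonneg_left ?_ (by positivity)
    linarith
  have h3 : 2 * δ * (2 * lam * (T * c * a * L * (1 - 5 * e))) = (T * c * a) * (1 - 5 * e) := by
    rw [hlam]
    field_simp
    ring
  have h4 : 2 * δ * (lam ^ 2 * (δ * (T * c * a * L ^ 2) * (4 + 20 * e))) =
      (T * c * a) * (1 / 2 + 5 / 2 * e) := by
    rw [hlam]
    field_simp
    ring
  have h5 : 2 * δ * (2 * lam * (T * c * a * L * (1 - 5 * e)) -
      lam ^ 2 * (δ * (T * c * a * L ^ 2) * (4 + 20 * e))) ≤ 2 * δ * J :=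
    mul_le_mul_of_nonneg_left (by linarith) (by positivity)
  rw [mul_sub, h3, h4] at h5
  have h6 : 0 < T * c * a := by positivity
  linarith

theorem t_CORE_of (hR : S_R) (hARCH : S_ARCH) (hFT : S_FT) (hOFF : S_OFF) (hD1 : S_D1) (hMV : S_MV)
    (hI1 : S_I1) (hI2 : S_I2) (hK1 : S_K1) (hK2 : S_K2) (hIBP : S_IBP) (hDS : S_DS) (hOS : S_OS)
    (hDD : S_DD) (hS2 : S_S2) : S_CORE := by
  intro P hP hc ε hε
  set c : ℝ := ∫ x : ℝ, ph P x with hcdef
  set a : ℝ := 6 / Real.pi ^ 2 with ha_def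
  have ha : 0 < a := by positivity
  obtain ⟨e, he0, he1, he2⟩ : ∃ e : ℝ, 0 < e ∧ e ≤ ε / 8 ∧ e ≤ 1 / 16 :=
    ⟨min (ε / 8) (1 / 16), by positivity, min_le_left _ _, min_le_right _ _⟩
  obtain ⟨CD, hCD, hD⟩ := hD1
  obtain ⟨CS, hCS, hS⟩ := hS2 ⟨CD, hCD, hD⟩
  obtain ⟨C2, hC2, h2⟩ := hI2 P
  obtain ⟨CK, hCK, hk2⟩ := hK2 hR hIBP hDS hOS hDD P hP e he0 (by linarith)
  have hk1 := hK1 hR hARCH hMV hFT hOFF P hP e he0 (by linarith)
  have h1 := hI1 hFT hOFF P e he0 (by linarith)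
  refine ⟨e / 8, by positivity, ?_⟩
  have hlogt : Tendsto Real.log atTop atTop := Real.tendsto_log_atTop
  set K0 : ℝ := max (max (CD / (e * a)) (4 * CS / (e * a))) (max (3 / (e * c * a)) (max CK (1 / e))) with hK0
  filter_upwards [hk2, hk1, h1, eventually_ge_atTop 3, hlogt.eventually_ge_atTop K0,
    eventually_ge_atTop ((1 + C2) / (e * c * a))] with T hk2 hk1 h1 hT hL0 hT2
  intro δ hδ hδT hG
  set L : ℝ := Real.log T with hLdef
  have hL1 : 1 < L := log_three hT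
  have hT0 : 0 < T := by linarith
  have hT1 : 1 ≤ T := by linarith
  -- consequences of the size of `L`
  have k1 : CD / (e * a) ≤ L := le_trans ((le_max_left _ _).trans (le_max_left _ _)) hL0
  have k2 : 4 * CS / (e * a) ≤ L := le_trans ((le_max_right _ _).trans (le_max_left _ _)) hL0
  have k3 : 3 / (e * c * a) ≤ L := le_trans ((le_max_left _ _).trans (le_max_right _ _)) hL0
  have k4 : CK ≤ L := le_trans ((le_max_left _ _).trans ((le_max_right _ _).trans (le_max_right _ _))) hL0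
  have k5 : 1 / e ≤ L := le_trans ((le_max_right _ _).trans ((le_max_right _ _).trans (le_max_right _ _))) hL0
  rw [div_le_iff₀ (by positivity)] at k1 k2 k3 k5 hT2
  -- the length
  set N : ℕ := ⌊T ^ (1 - e)⌋₊ with hN
  have hpow : T ^ (1 - e) = Real.exp ((1 - e) * L) := by
    rw [Real.rpow_def_of_pos hT0, mul_comm]
  have hk5 : 1 ≤ e * L := by linarith [mul_comm L e]
  have hbig : 2 ≤ T ^ (1 - e) := by
    rw [hpow]
    have h8 : Real.log 2 ≤ (1 - e) * L := by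
      have := Real.log_two_lt_d9
      nlinarith
    calc (2 : ℝ) = Real.exp (Real.log 2) := (Real.exp_log (by norm_num)).symm
      _ ≤ _ := Real.exp_le_exp.2 h8
  have hNle : (N : ℝ) ≤ T ^ (1 - e) := Nat.floor_le (by positivity)
  have hNge : T ^ (1 - e) / 2 ≤ N := by
    have := Nat.lt_floor_add_one (T ^ (1 - e))
    rw [← hN] at this
    linarith
  have hN1 : 1 ≤ N := by
    have : (1 : ℝ) ≤ N := by linarith
    exact_mod_cast this
  have hN1' : (1 : ℝ) ≤ N := by exact_mod_cast hN1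
  have hNT : (N : ℝ) ≤ T := hNle.trans (by
    calc T ^ (1 - e) ≤ T ^ (1 : ℝ) := Real.rpow_le_rpow_of_exponent_le hT1 (by linarith)
      _ = T := Real.rpow_one T)
  have hlogN : Real.log N ≤ L := Real.log_le_log (by linarith) hNT
  have hlogN0 : 0 ≤ Real.log N := Real.log_nonneg hN1'
  have hlogN1 : (1 - 2 * e) * L ≤ Real.log N := by
    have h8 : Real.log (T ^ (1 - e) / 2) ≤ Real.log N := Real.log_le_log (by positivity) hNge
    rw [Real.log_div (by positivity) (by norm_num), Real.log_rpow hT0] at h8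
    have := Real.log_two_lt_d9
    nlinarith
  -- `δ`
  have hδ1 : δ ≤ 1 / 8 := by nlinarith
  have hδ2 : 2 * δ * L ≤ e / 4 := by linarith
  have hex1 : 1 - e / 4 ≤ Real.exp (-(2 * δ * L)) := by
    have := Real.add_one_le_exp (-(2 * δ * L))
    linarith
  have hex2 : Real.exp (2 * δ * Real.log N) ≤ 1 + e := by
    have h8 : 2 * δ * Real.log N ≤ e / 4 := le_trans (by gcongr) hδ2
    calc Real.exp (2 * δ * Real.log N) ≤ Real.exp (e / 4) := Real.exp_le_exp.2 h8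
      _ ≤ 1 + e := by
          have h9 := Real.exp_bound_div_one_sub_of_interval (x := e / 4) (by positivity) (by linarith)
          refine h9.trans ?_
          rw [div_le_iff₀ (by linarith)]
          nlinarith
  -- the sums
  have hDN := abs_le.1 (hD N hN1)
  have hSdle : Sd N δ ≤ (1 + e) * (a * L) := by
    have h8 := Sd_le N hδ.le
    have h9 : a * Real.log N ≤ a * L := by gcongr
    nlinarith
  have hSdge : (1 - 4 * e) * (a * L) ≤ Sd N δ := by
    have h8 := Sd_ge N hδ.le hNT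
    have h9 : a * ((1 - 2 * e) * L) ≤ a * Real.log N := by gcongr
    have h10 : (1 - 3 * e) * (a * L) ≤ D1 N := by nlinarith
    have h11 : 0 ≤ (1 - 3 * e) * (a * L) := by
      have : 0 ≤ 1 - 3 * e := by linarith
      positivity
    calc (1 - 4 * e) * (a * L) ≤ (1 - e / 4) * ((1 - 3 * e) * (a * L)) := by
          have : 0 < a * L := by positivity
          nlinarith
      _ ≤ Real.exp (-(2 * δ * L)) * D1 N := mul_le_mul hex1 h10 h11 (Real.exp_pos _).le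
      _ ≤ _ := h8
  have hS2N : S2 N ≤ (1 + e) * (a / 2 * L ^ 2) := by
    have h8 := hS N hN1
    have h9 : 3 / Real.pi ^ 2 = a / 2 := by rw [ha_def]; ring
    rw [h9] at h8
    have h10 : Real.log N ^ 2 ≤ L ^ 2 := pow_le_pow_left₀ hlogN0 hlogN 2
    have h11 : CS * (1 + Real.log N) ≤ e * (a / 2) * L ^ 2 := by
      have : CS * (1 + Real.log N) ≤ CS * (2 * L) := mul_le_mul_of_nonneg_left (by linarith) hCS.le
      nlinarith
    have h12 : a / 2 * Real.log N ^ 2 ≤ a / 2 * L ^ 2 := by gcongr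
    linarith
  obtain ⟨hDd0, hDd1⟩ := hDD N δ hN1 hδ (by
    have : 2 * δ * Real.log N ≤ e / 4 := le_trans (by gcongr) hδ2
    have h8 := Real.log_two_gt_d9
    linarith)
  have hDd : Dd N δ ≤ δ * (1 + 3 * e) * (a * L ^ 2) := by
    refine hDd1.trans ?_
    have hS20 : 0 ≤ (1 + e) * (a / 2 * L ^ 2) := by positivity
    calc 2 * δ * Real.exp (2 * δ * Real.log N) * S2 N ≤
          2 * δ * Real.exp (2 * δ * Real.log N) * ((1 + e) * (a / 2 * L ^ 2)) :=
          mul_le_mul_of_nonneg_left hS2N (by positivity)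
      _ ≤ 2 * δ * (1 + e) * ((1 + e) * (a / 2 * L ^ 2)) := by
          refine mul_le_mul_of_nonneg_right ?_ hS20
          exact mul_le_mul_of_nonneg_left hex2 (by positivity)
      _ = δ * ((1 + e) ^ 2) * (a * L ^ 2) := by ring
      _ ≤ δ * (1 + 3 * e) * (a * L ^ 2) := by
          have : (1 + e) ^ 2 ≤ 1 + 3 * e := by nlinarith
          gcongr
  -- the terms
  have H1 := h1 N hNle δ hδ (by linarith) hG
  have H2 := h2 T hT N δ hδ hδ1 hG
  have H3 := hk1 N hN1 hNle δ hδ hδ1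
  have H4 := hk2 N hN1 hNle δ hδ (by linarith) hG
  have hcs := cs_step hP hR hT1 hδ hδ1 hG N (1 / (4 * δ * L))
  have hX : 0 < T * c * a := by positivity
  have k3' : 3 ≤ e * c * a * L := by linarith [mul_comm L (e * c * a)]
  refine le_trans ?_ (le_trans (num_step (e := e) (L := L) (a := a) (c := c) (T := T) (δ := δ)
    (lam := 1 / (4 * δ * L)) hT0 (by linarith) hc ha hδ rfl ?_ ?_ ?_ hcs) ?_)
  · have : (1 / 2 - ε) ≤ 1 / 2 - 8 * e := by linarith
    calc (1 / 2 - ε) * a * c * T = (1 / 2 - ε) * (T * c * a) := by ring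
      _ ≤ _ := mul_le_mul_of_nonneg_right this hX.le
  · -- the linear term
    have e1 := abs_le.1 ((Complex.abs_re_le_norm _).trans H1)
    have e2 := (abs_le.1 ((Complex.abs_re_le_norm _).trans H2)).2
    rw [sub_re, ofReal_re] at e1
    have e3 : T * c * ((1 - 4 * e) * (a * L)) ≤ T * c * Sd N δ :=
      mul_le_mul_of_nonneg_left hSdge (by positivity)
    have e4 : 1 + C2 * L ≤ e * (T * c * a * L) := by
      have : (1 + C2) * L ≤ T * (e * c * a) * L := mul_le_mul_of_nonneg_right hT2 (by linarith)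
      nlinarith
    have e5 := e1.1
    nlinarith
  · -- the archimedean term
    refine H3.trans ?_
    have e1 : T * c * Sd N δ ≤ T * c * ((1 + e) * (a * L)) := mul_le_mul_of_nonneg_left hSdle (by positivity)
    have e2 : (1 + e) * L * (T * c * Sd N δ + 1) ≤ (1 + e) * L * (T * c * ((1 + e) * (a * L)) + 1) :=
      mul_le_mul_of_nonneg_left (by linarith) (by positivity)
    have e3 : (1 + e) * L + 1 ≤ e * (T * c * a * L ^ 2) := by
      have e4 : 3 * L ≤ e * c * a * L * L := mul_le_mul_of_nonneg_right k3' (by linarith)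
      have e5 : e * c * a * L * L ≤ T * (e * c * a * L * L) :=
        le_mul_of_one_le_left (by positivity) hT1
      nlinarith
    have e6 : (1 + e) ^ 2 ≤ 1 + 3 * e := by nlinarith
    have e7 : (1 + e) ^ 2 * (T * c * a * L ^ 2) ≤ (1 + 3 * e) * (T * c * a * L ^ 2) :=
      mul_le_mul_of_nonneg_right e6 (by positivity)
    calc δ * ((1 + e) * L * (T * c * Sd N δ + 1) + 1) ≤
          δ * ((1 + 4 * e) * (T * c * a * L ^ 2)) := by
          refine mul_le_mul_of_nonneg_left ?_ hδ.le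
          nlinarith
      _ = _ := by ring
  · -- the term with the zeta function
    refine H4.trans ?_
    have e1 : 1 + CK * δ ≤ 1 + e := by
      have : CK * δ ≤ L * δ := mul_le_mul_of_nonneg_right k4 hδ.le
      nlinarith
    have e2 : T * c * (1 + CK * δ) * Dd N δ ≤ T * c * (1 + e) * (δ * (1 + 3 * e) * (a * L ^ 2)) := by
      refine mul_le_mul (mul_le_mul_of_nonneg_left e1 (by positivity)) hDd hDd0 (by positivity)
    have e3 : δ * T ≤ δ * (e * (T * c * a * L ^ 2)) := by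
      refine mul_le_mul_of_nonneg_left ?_ hδ.le
      have e4 : 3 * L ≤ e * c * a * L * L := mul_le_mul_of_nonneg_right k3' (by linarith)
      have e5 : 1 ≤ e * c * a * L * L := by linarith
      nlinarith
    have e6 : (1 + e) * (1 + 3 * e) ≤ 1 + 5 * e := by nlinarith
    have e7 : (1 + e) * (1 + 3 * e) * (δ * (T * c * a * L ^ 2)) ≤ (1 + 5 * e) * (δ * (T * c * a * L ^ 2)) :=
      mul_le_mul_of_nonneg_right e6 (by positivity)
    nlinarith
  · have : 0 ≤ e * (T * c * a) / 2 := by positivity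
    linarith

end Pool.Agent.H101.HB
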