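import Pool.Agent.H101.HB.Core
import Pool.Agent.H388.HB.SR
import Pool.Agent.H353.HB.IBP
import Pool.Agent.H120.HB.MV
import Pool.Agent.H287.HB.K1
import Pool.Agent.H757.HB.OS
import Pool.Agent.H757.HB.SM
import Pool.Agent.H153.HB.DS
import Pool.Agent.H153.HB.S2
import Pool.Agent.H153.HB.K2I
import Pool.Agent.H153.HB.K2II
import Pool.Agent.H27.HB.I1
import Pool.Agent.H972.HB.I2
import Pool.Agent.H484.HB.KS
import Pool.Agent.H484.HB.AB
import Pool.Agent.H675.HB.PLe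
import Pool.Graph.R_pool_sql_team_seeded_1acbe0a2.Y763.HB.D1
import Pool.Graph.R_pool_sql_team_seeded_1acbe0a2.Y763.HB.ARCH
import Pool.Graph.R_pool_sql_team_seeded_1acbe0a2.Y763.HB.FT
import Pool.Graph.R_pool_sql_team_seeded_1acbe0a2.Y763.HB.OFF
import Pool.Graph.R_pool_sql_team_seeded_1acbe0a2.Y763.HB.KBIG
import Pool.Graph.R_pool_sql_team_seeded_1acbe0a2.Y763.HB.KCMP
import Pool.Graph.R_pool_sql_team_seeded_1acbe0a2.Y763.HB.KER
import Pool.Graph.R_pool_sql_team_seeded_1acbe0a2.Y763.HB.KINT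
import Pool.Graph.R_pool_sql_team_seeded_1acbe0a2.Y763.HB.KPOLY
import Pool.Graph.R_pool_sql_team_seeded_1acbe0a2.Y763.HB.KPOS

/-!
# Project HB-uniform (helper101): final assembly
-/

set_option autoImplicit false

open Complex MeasureTheory Filter Topology Set

namespace Pool.Agent.H101.HB

open Pool.Agent.Y763.HB

theorem t_R : S_R := Pool.Agent.H388.HB.t_R

theorem t_K2 : S_K2 := t_K2_of Pool.Agent.H153.HBK.t_K2I Pool.Agent.H153.HBK.t_K2II

theorem t_CORE : S_CORE :=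
  t_CORE_of t_R t_ARCH t_FT t_OFF t_D1 Pool.Agent.H120.HB.t_MV Pool.Agent.H27.HB.t_I1
    Pool.Agent.H972.HB.t_I2 Pool.Agent.H287.HB.t_K1 t_K2 Pool.Agent.H353.HB.t_IBP
    Pool.Agent.H153.HBDS.t_DS Pool.Agent.H757.HB.t_OS Pool.Agent.H153.HBS2.t_DD
    Pool.Agent.H153.HBS2.t_S2

/-- `v` vanishes below `1/4` and is nonnegative -/
theorem M_small {x H : ℝ} (hx : x ≤ 1 / 2) (hH : H ≤ 1 / 4) : M x H = 0 := by
  unfold M
  refine Finset.sum_eq_zero fun n hn => ?_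
  have h := (Finset.mem_filter.1 hn).2
  have h1 := (abs_lt.1 h).2
  have hn0 : n = 0 := by
    have : (n : ℝ) < 1 := by linarith
    have : n < 1 := by exact_mod_cast this
    omega
  rw [hn0]
  simp

theorem v_small {T X : ℝ} (hT : 1 ≤ T) (hX0 : 0 < X) (hX : X ≤ 1 / 4) : v T X = 0 := by
  unfold v V
  have hH : X / T ≤ 1 / 4 := (div_le_self hX0.le hT).trans hX
  have h0 : ∫ x in X..2 * X, M x (X / T) ^ 2 = ∫ x in X..2 * X, (0 : ℝ) := by
    refine intervalIntegral.integral_congr fun x hx => ?_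
    rw [uIcc_of_le (by linarith)] at hx
    rw [M_small (by linarith [hx.2]) hH]
    norm_num
  rw [h0]
  simp

theorem v_nonneg {T X : ℝ} (hT : 0 < T) (hX0 : 0 < X) : 0 ≤ v T X := by
  unfold v V
  have : 0 ≤ ∫ x in X..2 * X, M x (X / T) ^ 2 :=
    intervalIntegral.integral_nonneg (by linarith) fun x _ => sq_nonneg _
  positivity

/-- comparison of two exponents -/
theorem Lw_comp {T δ δ' : ℝ} (hT : 1 ≤ T) (hδ : δ ≤ δ') :
    ENNReal.ofReal ((1 / 4 : ℝ) ^ (2 * (δ' - δ))) * Lw T δ' ≤ Lw T δ := by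
  unfold Lw
  rw [← lintegral_const_mul' _ _ ENNReal.ofReal_ne_top]
  refine setLIntegral_mono' measurableSet_Ioi fun X hX => ?_
  have hX0 : 0 < X := hX
  rw [← ENNReal.ofReal_mul (by positivity)]
  apply ENNReal.ofReal_le_ofReal
  by_cases h : X ≤ 1 / 4
  · rw [v_small hT hX0 h]
    simp
  · have hX4 : 1 / 4 ≤ X := by linarith [not_le.1 h]
    have hv := v_nonneg (T := T) (by linarith) hX0
    have e : X ^ (-(2 * δ) - 1) = X ^ (2 * (δ' - δ)) * X ^ (-(2 * δ') - 1) := by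
      rw [← Real.rpow_add hX0]
      congr 1
      ring
    rw [e]
    have h1 : (1 / 4 : ℝ) ^ (2 * (δ' - δ)) ≤ X ^ (2 * (δ' - δ)) :=
      Real.rpow_le_rpow (by norm_num) hX4 (by linarith)
    calc (1 / 4 : ℝ) ^ (2 * (δ' - δ)) * (v T X * X ^ (-(2 * δ') - 1)) =
        (1 / 4 : ℝ) ^ (2 * (δ' - δ)) * (v T X * X ^ (-(2 * δ') - 1)) := rfl
      _ ≤ X ^ (2 * (δ' - δ)) * (v T X * X ^ (-(2 * δ') - 1)) :=
          mul_le_mul_of_nonneg_right h1 (by positivity)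
      _ = _ := by ring

/-- the test function: nonnegative, below the kernel, of integral close to `2π` -/
theorem good_P (κ : ℝ) (hκ : 0 < κ) : ∃ P : Polynomial ℝ, (∀ y ∈ Icc (0:ℝ) 1, 0 ≤ P.eval y) ∧
    (∀ x : ℝ, x ^ 2 * ph P x ≤ kk x) ∧ 2 * (Real.pi - κ) ≤ ∫ x : ℝ, ph P x := by
  obtain ⟨P, h1, h2, h3⟩ := t_KPOLY t_KINT t_KPOS κ hκ
  refine ⟨P, h1, h3, ?_⟩
  have heven : ∀ x : ℝ, ph P (-x) = ph P x := fun x => by
    unfold ph
    rw [neg_sq]
  have hint : Integrable (fun x : ℝ => ph P x) := by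
    have := ph_int P (le_refl (1:ℝ))
    simpa using this
  have hsplit : ∫ x : ℝ, ph P x = (∫ x in Iic (0:ℝ), ph P x) + ∫ x in Ioi (0:ℝ), ph P x :=
    (intervalIntegral.integral_Iic_add_Ioi hint.integrableOn hint.integrableOn).symm
  have hneg : ∫ x in Iic (0:ℝ), ph P x = ∫ x in Ioi (0:ℝ), ph P x := by
    have h := integral_comp_neg_Ioi (0:ℝ) (fun x => ph P x)
    simp only [neg_zero] at h
    rw [← h]
    exact integral_congr_ae (Eventually.of_forall fun x => heven x)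
  rw [hsplit, hneg]
  linarith

/-- the lower bound for the whole integral -/
theorem main_all (ε : ℝ) (hε : 0 < ε) (hε1 : ε ≤ 1 / 4) : ∃ α : ℝ, 0 < α ∧ ∀ᶠ T : ℝ in atTop, ∀ δ : ℝ,
    0 < δ → δ * Real.log T ≤ α →
    ENNReal.ofReal ((1 / 2 - ε) * (6 / Real.pi ^ 2)) ≤ ENNReal.ofReal (2 * δ) * Lw T δ := by
  obtain ⟨P, hP, hPk, hPi⟩ := good_P (ε / 2) (by positivity)
  have hpi := Real.pi_gt_three
  have hc : 0 < ∫ x : ℝ, ph P x := by linarith
  obtain ⟨α, hα, hcore⟩ := t_CORE P hP hc (ε / 8) (by positivity)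
  have hks := Pool.Agent.H484.HBK.s_KS t_KPOS t_KBIG t_KCMP t_KER P hP hPk (ε / 8) (by positivity)
  refine ⟨min (α / 2) (ε / 32), by positivity, ?_⟩
  filter_upwards [hcore, hks, eventually_ge_atTop 3] with T hcore hks hT
  intro δ hδ hδT
  have hlog := log_three hT
  have hT0 : 0 < T := by linarith
  have hα1 : δ * Real.log T ≤ α / 2 := hδT.trans (min_le_left _ _)
  have hα2 : δ * Real.log T ≤ ε / 32 := hδT.trans (min_le_right _ _)
  have hδe : δ ≤ ε / 32 := by nlinarith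
  by_cases htop : Lw T δ = ⊤
  · rw [htop, ENNReal.mul_top (by
      rw [Ne, ENNReal.ofReal_eq_zero, not_le]
      positivity)]
    exact le_top
  -- a slightly larger exponent
  set δ' : ℝ := δ * (1 + ε / 8) with hδ'
  have hδ'1 : δ < δ' := by rw [hδ']; nlinarith
  have hδ'2 : δ' ≤ 2 * δ := by rw [hδ']; nlinarith
  have hδ'0 : 0 < δ' := by linarith
  obtain ⟨hG, hPL⟩ := Pool.Agent.H675.HB.t_PL T δ δ' (by linarith) hδ hδ'1 (by linarith)
    (lt_top_iff_ne_top.2 htop)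
  have hC := hcore δ' hδ'0 (by nlinarith) hG
  -- the kernel
  have hint : Integrable (fun t : ℝ => ‖iz (ln δ' t)‖ ^ 2 * ph P (t / T)) := by
    obtain ⟨Ci, ki, hCi, hi⟩ := iz_bd hG (by linarith)
    have c1 : Continuous (fun t : ℝ => iz (ln δ' t)) :=
      ln_cont fun t => iz_diff hG (ln_re δ' t).ge (by rw [ln_re]; linarith)
    refine int_polyR P (C := Ci ^ 2) (k := 2 * ki) (by linarith) (by positivity) (c1.norm.pow 2)
      fun t => ?_
    have n1 := hi _ (ln_re δ' t).ge (by rw [ln_re]; linarith)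
    rw [ln_im] at n1
    rw [abs_pow, abs_norm]
    calc _ ≤ (Ci * (1 + |t|) ^ ki) ^ 2 := pow_le_pow_left₀ (norm_nonneg _) n1 2
      _ = _ := by rw [mul_pow, ← pow_mul, mul_comm ki 2]
  have hker : ENNReal.ofReal ((1 - ε / 8) / T * ∫ t : ℝ, ‖iz (ln δ' t)‖ ^ 2 * ph P (t / T)) ≤
      ∫⁻ t : ℝ, ENNReal.ofReal (‖iz (ln δ' t)‖ ^ 2 / ‖ln δ' t‖ ^ 2 *
        (T * ∫ u in (1:ℝ)..2, ‖((u + 1 / (2 * T) : ℝ) : ℂ) ^ (ln δ' t) -
          ((u - 1 / (2 * T) : ℝ) : ℂ) ^ (ln δ' t)‖ ^ 2)) := by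
    rw [← integral_const_mul, ofReal_integral_eq_lintegral_ofReal (hint.const_mul _)
      (Eventually.of_forall fun t => by
        have := ph_nonneg hP (t / T)
        have h8 : 0 ≤ 1 - ε / 8 := by linarith
        simp only [Pi.zero_apply]
        positivity)]
    refine lintegral_mono fun t => ENNReal.ofReal_le_ofReal ?_
    have h1 := hks δ' hδ'0 (by linarith) t
    have hn : 0 < ‖ln δ' t‖ := by
      have h2 := Complex.abs_re_le_norm (ln δ' t)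
      rw [ln_re] at h2
      have := le_abs_self (1 / 2 + δ')
      linarith
    have h3 := mul_le_mul_of_nonneg_left h1 (show 0 ≤ ‖iz (ln δ' t)‖ ^ 2 / ‖ln δ' t‖ ^ 2 by positivity)
    refine le_trans (le_of_eq ?_) h3
    field_simp
  have hmain : ENNReal.ofReal (1 / (2 * Real.pi)) * ENNReal.ofReal ((1 - ε / 8) / T *
      ∫ t : ℝ, ‖iz (ln δ' t)‖ ^ 2 * ph P (t / T)) ≤ Lw T δ' :=
    (mul_le_mul' le_rfl hker).trans hPL
  have hcomp := Lw_comp (T := T) (by linarith) hδ'1.le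
  have hfin : ENNReal.ofReal ((1 / 4 : ℝ) ^ (2 * (δ' - δ))) * (ENNReal.ofReal (1 / (2 * Real.pi)) *
      ENNReal.ofReal ((1 - ε / 8) / T * ∫ t : ℝ, ‖iz (ln δ' t)‖ ^ 2 * ph P (t / T))) ≤ Lw T δ :=
    (mul_le_mul' le_rfl hmain).trans hcomp
  refine le_trans ?_ (mul_le_mul' le_rfl hfin)
  have h8 : 0 ≤ 1 - ε / 8 := by linarith
  have hJ0 : 0 ≤ ∫ t : ℝ, ‖iz (ln δ' t)‖ ^ 2 * ph P (t / T) :=
    integral_nonneg fun t => mul_nonneg (by positivity) (ph_nonneg hP _)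
  rw [← ENNReal.ofReal_mul (by positivity), ← ENNReal.ofReal_mul (by positivity),
    ← ENNReal.ofReal_mul (by positivity)]
  apply ENNReal.ofReal_le_ofReal
  set J : ℝ := ∫ t : ℝ, ‖iz (ln δ' t)‖ ^ 2 * ph P (t / T) with hJdef
  set c : ℝ := ∫ x : ℝ, ph P x with hcdef
  have ha : 0 < 6 / Real.pi ^ 2 := by positivity
  -- `(1/4)^(2(δ'-δ)) ≥ 1 - ε/8`
  have hq : 1 - ε / 8 ≤ (1 / 4 : ℝ) ^ (2 * (δ' - δ)) := by
    rw [Real.rpow_def_of_pos (by norm_num)]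
    have h9 := Real.add_one_le_exp (Real.log (1 / 4) * (2 * (δ' - δ)))
    refine le_trans ?_ h9
    have h10 : Real.log (1 / 4) = -(2 * Real.log 2) := by
      rw [one_div, Real.log_inv, show (4:ℝ) = 2 ^ 2 by norm_num, Real.log_pow]
      push_cast
      ring
    rw [h10]
    have h11 := Real.log_two_lt_d9
    have h12 : δ' - δ ≤ ε / 32 := by linarith
    have h13 : 0 ≤ δ' - δ := by linarith
    nlinarith
  have hx : (1 - ε / 8) / (1 + ε / 8) ≥ 1 - ε / 4 := by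
    rw [ge_iff_le, le_div_iff₀ (by positivity)]
    nlinarith
  -- `2 δ = 2 δ' / (1 + ε/8)`
  have hδδ : 2 * δ = 2 * δ' / (1 + ε / 8) := by
    rw [hδ']
    field_simp
  have hcp : 1 - ε / 4 ≤ c / (2 * Real.pi) := by
    rw [le_div_iff₀ (by positivity)]
    nlinarith
  have hC' : (1 / 2 - ε / 8) * (6 / Real.pi ^ 2) * c * T ≤ 2 * δ' * J := hC
  have step1 : (1 - ε / 8) * ((1 / (2 * Real.pi)) * ((1 - ε / 8) / T * J)) ≤
      (1 / 4 : ℝ) ^ (2 * (δ' - δ)) * ((1 / (2 * Real.pi)) * ((1 - ε / 8) / T * J)) :=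
    mul_le_mul_of_nonneg_right hq (by positivity)
  refine le_trans ?_ (mul_le_mul_of_nonneg_left step1 (by positivity))
  have step2 : 2 * δ * ((1 - ε / 8) * ((1 / (2 * Real.pi)) * ((1 - ε / 8) / T * J))) =
      ((1 - ε / 8) / (1 + ε / 8)) * (1 - ε / 8) / (2 * Real.pi * T) * (2 * δ' * J) := by
    rw [hδδ]
    field_simp
  rw [step2]
  have step3 : ((1 - ε / 8) / (1 + ε / 8)) * (1 - ε / 8) / (2 * Real.pi * T) *
      ((1 / 2 - ε / 8) * (6 / Real.pi ^ 2) * c * T) ≤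
      ((1 - ε / 8) / (1 + ε / 8)) * (1 - ε / 8) / (2 * Real.pi * T) * (2 * δ' * J) :=
    mul_le_mul_of_nonneg_left hC' (by positivity)
  refine le_trans ?_ step3
  have step4 : ((1 - ε / 8) / (1 + ε / 8)) * (1 - ε / 8) / (2 * Real.pi * T) *
      ((1 / 2 - ε / 8) * (6 / Real.pi ^ 2) * c * T) =
      (6 / Real.pi ^ 2) * (((1 - ε / 8) / (1 + ε / 8)) * (1 - ε / 8) * (1 / 2 - ε / 8) *
        (c / (2 * Real.pi))) := by
    field_simp
  rw [step4, mul_comm (1 / 2 - ε)]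
  refine mul_le_mul_of_nonneg_left ?_ ha.le
  have s1 : (1 - ε / 4) * (1 - ε / 8) ≤ (1 - ε / 8) / (1 + ε / 8) * (1 - ε / 8) :=
    mul_le_mul_of_nonneg_right hx h8
  have s2 : (1 - ε / 4) * (1 - ε / 8) * (1 / 2 - ε / 8) ≤
      (1 - ε / 8) / (1 + ε / 8) * (1 - ε / 8) * (1 / 2 - ε / 8) :=
    mul_le_mul_of_nonneg_right s1 (by linarith)
  have s3 : (1 - ε / 4) * (1 - ε / 8) * (1 / 2 - ε / 8) * (1 - ε / 4) ≤
      (1 - ε / 8) / (1 + ε / 8) * (1 - ε / 8) * (1 / 2 - ε / 8) * (c / (2 * Real.pi)) := by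
    refine mul_le_mul s2 hcp (by linarith) ?_
    have : 0 ≤ 1 / 2 - ε / 8 := by linarith
    positivity
  refine le_trans ?_ s3
  have s4 : (1 - ε / 4) * (1 - ε / 8) ≥ 1 - 3 * ε / 8 := by nlinarith
  have s5 : (1 - ε / 4) * (1 - ε / 8) * (1 / 2 - ε / 8) ≥ (1 - 3 * ε / 8) * (1 / 2 - ε / 8) :=
    mul_le_mul_of_nonneg_right s4 (by linarith)
  have s6 : (1 - 3 * ε / 8) * (1 / 2 - ε / 8) ≥ 1 / 2 - 5 * ε / 16 := by nlinarith
  have s7 : (1 - ε / 4) * (1 - ε / 8) * (1 / 2 - ε / 8) * (1 - ε / 4) ≥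
      (1 / 2 - 5 * ε / 16) * (1 - ε / 4) := mul_le_mul_of_nonneg_right (by linarith) (by linarith)
  nlinarith

end Pool.Agent.H101.HB
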