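import Pool.Agent.H101.HB.Stm2

/-!
# Project HB-uniform (helper101): assembly of `S_K2`
-/

set_option autoImplicit false

open Complex MeasureTheory Filter Topology Set

namespace Pool.Agent.H101.HB

open Pool.Agent.Y763.HB

theorem ph_nonneg {P : Polynomial ℝ} (hP : ∀ y ∈ Icc (0:ℝ) 1, 0 ≤ P.eval y) (x : ℝ) : 0 ≤ ph P x := by
  unfold ph
  refine mul_nonneg (hP _ ⟨(Real.exp_pos _).le, ?_⟩) (Real.exp_pos _).le
  exact Real.exp_le_one_iff.2 (by nlinarith [sq_nonneg x])

theorem ph_int (P : Polynomial ℝ) {T : ℝ} (hT : 1 ≤ T) : Integrable (fun t : ℝ => ph P (t / T)) := by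
  obtain ⟨C, hC, hW⟩ := W_bd P
  have h := intG (f := W P T 0) (x := 0) (C := C) (T := T) (k := 0) (by linarith) hC.le
    (fun y => W_diff P T 0 _) (fun y => by
      have := hW T 0 hT ((0 : ℝ) + y * I) (by simp)
      simpa using this)
  have h2 : (fun t : ℝ => W P T 0 (((0 : ℝ) : ℂ) + t * I)) = fun t : ℝ => ((ph P (t / T) : ℝ) : ℂ) := by
    funext t
    exact W_line P T 0 t
  rw [h2] at h
  exact h.re.congr (Eventually.of_forall fun t => by simp)

theorem ph_scale (P : Polynomial ℝ) {T : ℝ} (hT : 1 ≤ T) :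
    ∫ t : ℝ, ph P (t / T) = T * ∫ x : ℝ, ph P x := by
  rw [Measure.integral_comp_div (fun x => ph P x) T, abs_of_pos (by linarith), smul_eq_mul]

theorem log_three {T : ℝ} (hT : 3 ≤ T) : 1 < Real.log T := by
  have h1 : Real.exp 1 < T := by
    have := Real.exp_one_lt_d9
    linarith
  exact (Real.lt_log_iff_exp_lt (by linarith)).2 h1

theorem ev_log (C ε : ℝ) (hε : 0 < ε) (hC : 0 < C) : ∀ᶠ T : ℝ in atTop,
    C * T ^ (1 - ε) * Real.log T ^ 5 ≤ T := by
  have h := isLittleO_log_rpow_rpow_atTop (s := ε) 5 hε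
  have h2 := h.bound (c := 1 / C) (by positivity)
  filter_upwards [h2, eventually_ge_atTop 3] with T h3 hT
  have hT0 : 0 < T := by linarith
  have hl := log_three hT
  rw [Real.norm_eq_abs, Real.norm_eq_abs, abs_of_nonneg (by positivity), abs_of_pos (by positivity)] at h3
  have e5 : Real.log T ^ (5 : ℝ) = Real.log T ^ 5 := by
    rw [← Real.rpow_natCast]
    norm_num
  rw [e5] at h3
  calc C * T ^ (1 - ε) * Real.log T ^ 5 ≤ C * T ^ (1 - ε) * (1 / C * T ^ ε) :=
        mul_le_mul_of_nonneg_left h3 (by positivity)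
    _ = T ^ (1 - ε) * T ^ ε := by field_simp
    _ = T := by rw [← Real.rpow_add hT0]; simp

theorem lc_re (T δ t : ℝ) : (lc T δ t).re = 1 + 2 * δ + 1 / Real.log T := by
  unfold lc
  simp

theorem lc_im (T δ t : ℝ) : (lc T δ t).im = t := by
  unfold lc
  simp

/-- `b = R q Z` to the right of `1 + 2δ` -/
theorem b_far {δ : ℝ} (hδ : 0 < δ) (hδ1 : δ ≤ 1 / 8) {s : ℂ} (h1 : 1 + 2 * δ < s.re) :
    b δ s = R δ s * q δ s * Z δ s := by
  have hs1 : s ≠ 1 := by
    intro h
    rw [h, one_re] at h1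
    linarith
  have hs2 : s - ((2 * δ : ℝ) : ℂ) ≠ 1 := by
    intro h
    have := congrArg Complex.re h
    rw [sub_re, ofReal_re, one_re] at this
    linarith
  rw [b_eq hδ hδ1 (by linarith), G_eq hs1, G_eq hs2]
  unfold q Z
  rw [mul_div_mul_comm]
  rw [mul_div_mul_comm (s - ((2 * δ : ℝ) : ℂ))]
  ring

theorem t_K2_of (hI : S_K2I) (hII : S_K2II) : S_K2 := by
  intro hR hIBP hDS hOS hDD P hP ε hε hε1
  obtain ⟨C1, hC1, h1⟩ := hI hR hIBP hDS hOS P
  obtain ⟨C2, hC2, h2⟩ := hII hR P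
  have hR' := hR
  obtain ⟨CR, hCR, hR0⟩ := hR
  obtain ⟨CW, hCW, hW⟩ := W_bd P
  refine ⟨CR, hCR, ?_⟩
  filter_upwards [ev_log (C1 + C2) ε hε (by linarith), eventually_ge_atTop 3] with T hev hT
  intro N hN hNT δ hδ hδT hG
  have hT1 : 1 ≤ T := by linarith
  have hT0 : 0 < T := by linarith
  have hlog := log_three hT
  have hδ1 : δ ≤ 1 / 8 := by nlinarith
  have hNT1 : (N : ℝ) ≤ T := hNT.trans (by
    calc T ^ (1 - ε) ≤ T ^ (1 : ℝ) := Real.rpow_le_rpow_of_exponent_le hT1 (by linarith)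
      _ = T := Real.rpow_one T)
  have hη1 : 1 / Real.log T < 1 := by
    rw [div_lt_one (by linarith)]
    exact hlog
  have hη0 : 0 < 1 / Real.log T := by positivity
  obtain ⟨CA, hCA, hA⟩ := A_bd N
  obtain ⟨Cb, kb, hCb, hb⟩ := b_bd hR' hδ hδ1 hG
  have hRs := (hR0 δ hδ hδ1).1
  have hRl := (hR0 δ hδ hδ1).2
  set c : ℝ := 1 + 2 * δ + 1 / Real.log T with hc
  have hc3 : c ≤ 3 := by rw [hc]; linarith
  have hσc : 1 / 2 + δ ≤ c := by rw [hc]; linarith
  -- the function on the strip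
  set h : ℂ → ℂ := fun s => A N s * A N (((1 + 2 * δ : ℝ) : ℂ) - s) * (R δ s - b δ s) *
    W P T (1 / 2 + δ) s with hh
  have hre : ∀ s : ℂ, (((1 + 2 * δ : ℝ) : ℂ) - s).re = 1 + 2 * δ - s.re := fun s => by
    rw [sub_re, ofReal_re]
  have hAdiff : ∀ s : ℂ, DifferentiableAt ℂ (fun s : ℂ => A N (((1 + 2 * δ : ℝ) : ℂ) - s)) s := fun s =>
    DifferentiableAt.comp (g := A N) s (A_diff N _) (by fun_prop)
  have hd : ∀ s : ℂ, 1 / 2 + δ ≤ s.re → s.re ≤ c → DifferentiableAt ℂ h s := by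
    intro s hs1 hs2
    exact ((((A_diff N s).mul (hAdiff s)).mul ((hRs s hs1 (by linarith)).1.sub
      (b_diff hδ hG hs1 (by linarith)))).mul (W_diff P T _ s))
  have hWb : ∀ s : ℂ, 1 / 2 + δ ≤ s.re → s.re ≤ c →
      ‖W P T (1 / 2 + δ) s‖ ≤ CW * Real.exp (-(s.im ^ 2 / T ^ 2)) := by
    intro s hs1 hs2
    exact hW T (1 / 2 + δ) hT1 s (by rw [abs_le]; constructor <;> linarith)
  have hAb : ∀ s : ℂ, 1 / 2 + δ ≤ s.re → s.re ≤ c → ‖A N (((1 + 2 * δ : ℝ) : ℂ) - s)‖ ≤ CA := by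
    intro s hs1 hs2
    exact hA _ (by rw [hre]; linarith) (by rw [hre]; linarith)
  have hbd : ∀ s : ℂ, 1 / 2 + δ ≤ s.re → s.re ≤ c →
      ‖h s‖ ≤ (CA * CA * (CR + Cb) * CW) * (1 + |s.im|) ^ kb * Real.exp (-(s.im ^ 2 / T ^ 2)) := by
    intro s hs1 hs2
    have e1 := hA s (by linarith) (by linarith)
    have e2 := hAb s hs1 hs2
    have e3 : ‖R δ s - b δ s‖ ≤ (CR + Cb) * (1 + |s.im|) ^ kb := by
      have e4 := (hRs s hs1 (by linarith)).2.1
      have e5 := hb s hs1 (by linarith)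
      have e6 : 1 ≤ (1 + |s.im|) ^ kb := one_le_pow₀ (by linarith [abs_nonneg s.im])
      calc ‖R δ s - b δ s‖ ≤ ‖R δ s‖ + ‖b δ s‖ := norm_sub_le _ _
        _ ≤ CR * (1 + |s.im|) ^ kb + Cb * (1 + |s.im|) ^ kb := by
            refine add_le_add (e4.trans ?_) e5
            nlinarith
        _ = _ := by ring
    have e7 := hWb s hs1 hs2
    have hi := abs_nonneg s.im
    rw [hh]
    simp only [norm_mul]
    calc _ ≤ CA * CA * ((CR + Cb) * (1 + |s.im|) ^ kb) * (CW * Real.exp (-(s.im ^ 2 / T ^ 2))) := by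
          refine mul_le_mul (mul_le_mul (mul_le_mul e1 e2 (norm_nonneg _) hCA.le) e3 (norm_nonneg _)
            (by positivity)) e7 (norm_nonneg _) (by positivity)
      _ = _ := by ring
  have hshift : ∫ t : ℝ, h (((1 / 2 + δ : ℝ) : ℂ) + t * I) = ∫ t : ℝ, h ((c : ℂ) + t * I) :=
    shiftG hσc hT0 (by positivity) hd hbd
  have hint : Integrable (fun t : ℝ => h ((c : ℂ) + t * I)) := by
    refine intG (x := c) (C := CA * CA * (CR + Cb) * CW) (k := kb) hT0 (by positivity)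
      (fun y => hd _ (by simpa using hσc) (by simp)) (fun y => ?_)
    have := hbd ((c : ℂ) + y * I) (by simpa using hσc) (by simp)
    simpa using this
  have hint0 : Integrable (fun t : ℝ => h (((1 / 2 + δ : ℝ) : ℂ) + t * I)) := by
    refine intG (x := 1 / 2 + δ) (C := CA * CA * (CR + Cb) * CW) (k := kb) hT0 (by positivity)
      (fun y => hd _ (by simp) (by simpa using hσc)) (fun y => ?_)
    have := hbd (((1 / 2 + δ : ℝ) : ℂ) + y * I) (by simp) (by simpa using hσc)
    simpa using this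
  -- the line `Re s = σ`
  have hline : ∀ t : ℝ, (h (((1 / 2 + δ : ℝ) : ℂ) + t * I)).re =
      ‖A N (ln δ t)‖ ^ 2 * ((R δ (ln δ t)).re - (b δ (ln δ t)).re) * ph P (t / T) := by
    intro t
    have e : (((1 / 2 + δ : ℝ) : ℂ) + t * I) = ln δ t := rfl
    rw [e, hh]
    simp only
    rw [W_ln, ← ln_conj, ← A_conj, Complex.mul_conj, Complex.normSq_eq_norm_sq, re_mul_ofReal,
      re_ofReal_mul, sub_re]
  have hLHS : (∫ t : ℝ, ‖A N (ln δ t)‖ ^ 2 * ((R δ (ln δ t)).re - (b δ (ln δ t)).re) * ph P (t / T)) =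
      (∫ t : ℝ, h (((1 / 2 + δ : ℝ) : ℂ) + t * I)).re := by
    rw [show (∫ t : ℝ, h (((1 / 2 + δ : ℝ) : ℂ) + t * I)).re =
      ∫ t : ℝ, (h (((1 / 2 + δ : ℝ) : ℂ) + t * I)).re from
      (reCLM.integral_comp_comm hint0).symm]
    exact integral_congr_ae (Eventually.of_forall fun t => (hline t).symm)
  -- the integral of `R W`
  have hRWd : ∀ s : ℂ, 1 / 2 + δ ≤ s.re → s.re ≤ c →
      DifferentiableAt ℂ (fun s => R δ s * W P T (1 / 2 + δ) s) s := fun s hs1 hs2 =>
    (hRs s hs1 (by linarith)).1.mul (W_diff P T _ s)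
  have hRWb : ∀ s : ℂ, 1 / 2 + δ ≤ s.re → s.re ≤ c →
      ‖R δ s * W P T (1 / 2 + δ) s‖ ≤ (CR * CW) * (1 + |s.im|) ^ 0 * Real.exp (-(s.im ^ 2 / T ^ 2)) := by
    intro s hs1 hs2
    rw [norm_mul]
    calc _ ≤ CR * (CW * Real.exp (-(s.im ^ 2 / T ^ 2))) :=
          mul_le_mul (hRs s hs1 (by linarith)).2.1 (hWb s hs1 hs2) (norm_nonneg _) hCR.le
      _ = _ := by ring
  have hRWshift : ∫ t : ℝ, R δ (((1 / 2 + δ : ℝ) : ℂ) + t * I) * W P T (1 / 2 + δ) (((1 / 2 + δ : ℝ) : ℂ) + t * I) =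
      ∫ t : ℝ, R δ ((c : ℂ) + t * I) * W P T (1 / 2 + δ) ((c : ℂ) + t * I) :=
    shiftG (f := fun s => R δ s * W P T (1 / 2 + δ) s) hσc hT0 (by positivity) hRWd hRWb
  have hRWint0 : Integrable (fun t : ℝ => R δ (ln δ t) * W P T (1 / 2 + δ) (ln δ t)) := by
    refine intG (f := fun s => R δ s * W P T (1 / 2 + δ) s) (x := 1 / 2 + δ) (C := CR * CW) (k := 0)
      hT0 (by positivity) (fun y => hRWd _ (by simp) (by simpa using hσc)) (fun y => ?_)
    have := hRWb (((1 / 2 + δ : ℝ) : ℂ) + y * I) (by simp) (by simpa using hσc)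
    simpa using this
  have hrho : (∫ t : ℝ, R δ (lc T δ t) * W P T (1 / 2 + δ) (lc T δ t)).re ≤
      (1 + CR * δ) * (T * ∫ x : ℝ, ph P x) := by
    have e1 : (∫ t : ℝ, R δ (lc T δ t) * W P T (1 / 2 + δ) (lc T δ t)) =
        ∫ t : ℝ, R δ (ln δ t) * W P T (1 / 2 + δ) (ln δ t) := hRWshift.symm
    rw [e1, show (∫ t : ℝ, R δ (ln δ t) * W P T (1 / 2 + δ) (ln δ t)).re =
      ∫ t : ℝ, (R δ (ln δ t) * W P T (1 / 2 + δ) (ln δ t)).re from
      (reCLM.integral_comp_comm hRWint0).symm, ← ph_scale P hT1, ← integral_const_mul]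
    refine integral_mono (reCLM.integrable_comp hRWint0) ((ph_int P hT1).const_mul _) fun t => ?_
    simp only
    rw [W_ln]
    change (R δ (ln δ t) * ((ph P (t / T) : ℝ) : ℂ)).re ≤ _
    rw [re_mul_ofReal]
    exact mul_le_mul_of_nonneg_right (hRl t).2 (ph_nonneg hP _)
  -- splitting on the line `Re s = c`
  set f1 : ℝ → ℂ := fun t => A N (lc T δ t) * (Z δ (lc T δ t) - 1) * A N (((1 + 2 * δ : ℝ) : ℂ) - lc T δ t) *
      R δ (lc T δ t) * W P T (1 / 2 + δ) (lc T δ t) with hf1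
  set f2 : ℝ → ℂ := fun t => A N (lc T δ t) * A N (((1 + 2 * δ : ℝ) : ℂ) - lc T δ t) *
      (R δ (lc T δ t) * (1 - q δ (lc T δ t)) * Z δ (lc T δ t)) * W P T (1 / 2 + δ) (lc T δ t) with hf2
  have hsplit : ∀ t : ℝ, h ((c : ℂ) + t * I) = -f1 t + f2 t := by
    intro t
    have e : ((c : ℂ) + t * I) = lc T δ t := rfl
    have hre' : 1 + 2 * δ < (lc T δ t).re := by rw [lc_re]; linarith
    rw [e, hh, hf1, hf2]
    simp only
    rw [b_far hδ hδ1 hre']
    ring
  have hf1int : Integrable f1 := by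
    obtain ⟨CG, kG, hCG, hGg⟩ := G_growth
    obtain ⟨Ci, ki, hCi, hi⟩ := iz_bd hG (by linarith)
    have hZe : ∀ t : ℝ, Z δ (lc T δ t) = G (lc T δ t - ((2 * δ : ℝ) : ℂ)) /
        (lc T δ t - ((2 * δ : ℝ) : ℂ) - 1) * iz (lc T δ t) := by
      intro t
      have hre' : 1 + 2 * δ < (lc T δ t).re := by rw [lc_re]; linarith
      have hs1 : lc T δ t ≠ 1 := by
        intro h
        rw [h, one_re] at hre'
        linarith
      have hs2 : lc T δ t - ((2 * δ : ℝ) : ℂ) ≠ 1 := by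
        intro h
        have := congrArg Complex.re h
        rw [sub_re, ofReal_re, one_re] at this
        linarith
      have hz : riemannZeta (lc T δ t) ≠ 0 := riemannZeta_ne_zero_of_one_lt_re (by linarith)
      have hs3 := sub_ne_zero.2 hs1
      have hs4 := sub_ne_zero.2 hs2
      unfold Z iz
      rw [G_eq hs1, G_eq hs2]
      field_simp
    have hZb : ∀ t : ℝ, ‖Z δ (lc T δ t)‖ ≤ CG * Real.log T * Ci * (1 + |t|) ^ (kG + ki) := by
      intro t
      rw [hZe t, norm_mul, norm_div]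
      have hrs : (lc T δ t - ((2 * δ : ℝ) : ℂ)).re = 1 + 1 / Real.log T := by
        rw [sub_re, ofReal_re, lc_re]
        ring
      have his : (lc T δ t - ((2 * δ : ℝ) : ℂ)).im = t := by
        rw [sub_im, ofReal_im, sub_zero, lc_im]
      have g1 := hGg (lc T δ t - ((2 * δ : ℝ) : ℂ)) (by rw [hrs]; linarith) (by rw [hrs]; linarith)
      rw [his] at g1
      have g2 := hi (lc T δ t) (by rw [lc_re]; linarith) (by rw [lc_re]; exact hc3)
      rw [lc_im] at g2
      have g3 : 1 / Real.log T ≤ ‖lc T δ t - ((2 * δ : ℝ) : ℂ) - 1‖ := by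
        refine le_trans ?_ (Complex.abs_re_le_norm _)
        rw [sub_re, hrs, one_re, add_sub_cancel_left]
        exact le_abs_self _
      have ht := abs_nonneg t
      calc _ ≤ (CG * (1 + |t|) ^ kG / (1 / Real.log T)) * (Ci * (1 + |t|) ^ ki) := by
            refine mul_le_mul (div_le_div₀ (by positivity) g1 hη0 g3) g2 (norm_nonneg _) (by positivity)
        _ = _ := by
            rw [div_div_eq_mul_div, div_one]
            ring
    have hlcd : ∀ t : ℝ, 1 < (lc T δ t).re := fun t => by rw [lc_re]; linarith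
    have hZd : ∀ y : ℝ, DifferentiableAt ℂ (Z δ) ((c : ℂ) + y * I) := by
      intro y
      have e : ((c : ℂ) + y * I) = lc T δ y := rfl
      rw [e]
      have hs1 : lc T δ y ≠ 1 := by
        intro h
        have := hlcd y
        rw [h, one_re] at this
        linarith
      have hs2 : lc T δ y - ((2 * δ : ℝ) : ℂ) ≠ 1 := by
        intro h
        have := congrArg Complex.re h
        rw [sub_re, ofReal_re, one_re, lc_re] at this
        linarith
      have d1 : DifferentiableAt ℂ (fun s : ℂ => riemannZeta (s - ((2 * δ : ℝ) : ℂ))) (lc T δ y) :=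
        DifferentiableAt.comp (g := riemannZeta) (lc T δ y) (differentiableAt_riemannZeta hs2)
          (by fun_prop)
      exact d1.div (differentiableAt_riemannZeta hs1) (riemannZeta_ne_zero_of_one_lt_re (hlcd y))
    refine intG (f := fun s => A N s * (Z δ s - 1) * A N (((1 + 2 * δ : ℝ) : ℂ) - s) * R δ s *
      W P T (1 / 2 + δ) s) (x := c) (C := CA * (CG * Real.log T * Ci + 1) * CA * CR * CW) (k := kG + ki)
      hT0 (by positivity) (fun y => ?_) (fun y => ?_)
    · exact (((((A_diff N _).mul ((hZd y).sub_const 1)).mul (hAdiff _)).mul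
        (hRs _ (by simpa using hσc) (by simpa using hc3)).1).mul (W_diff P T _ _))
    · have k1 : 1 / 2 + δ ≤ ((c : ℂ) + y * I).re := by simpa using hσc
      have k2 : ((c : ℂ) + y * I).re ≤ c := by simp
      have g1 := hA ((c : ℂ) + y * I) (by linarith) (by linarith)
      have g2 := hAb _ k1 k2
      have g3 := (hRs _ k1 (by linarith)).2.1
      have g4 := hWb _ k1 k2
      have g5 : ‖Z δ ((c : ℂ) + y * I) - 1‖ ≤ (CG * Real.log T * Ci + 1) * (1 + |y|) ^ (kG + ki) := by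
        have g6 := hZb y
        have g7 : 1 ≤ (1 + |y|) ^ (kG + ki) := one_le_pow₀ (by linarith [abs_nonneg y])
        calc ‖Z δ ((c : ℂ) + y * I) - 1‖ ≤ ‖Z δ ((c : ℂ) + y * I)‖ + ‖(1 : ℂ)‖ := norm_sub_le _ _
          _ ≤ CG * Real.log T * Ci * (1 + |y|) ^ (kG + ki) + 1 * (1 + |y|) ^ (kG + ki) := by
              rw [norm_one]
              refine add_le_add g6 ?_
              linarith
          _ = _ := by ring
      have him : ((c : ℂ) + y * I).im = y := by simp
      rw [him] at g4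
      have hy := abs_nonneg y
      simp only [norm_mul]
      calc _ ≤ CA * ((CG * Real.log T * Ci + 1) * (1 + |y|) ^ (kG + ki)) * CA * CR *
            (CW * Real.exp (-(y ^ 2 / T ^ 2))) := by
            refine mul_le_mul (mul_le_mul (mul_le_mul (mul_le_mul g1 g5 (norm_nonneg _) hCA.le) g2
              (norm_nonneg _) (by positivity)) g3 (norm_nonneg _) (by positivity)) g4 (norm_nonneg _)
              (by positivity)
        _ = _ := by ring
  have hf2int : Integrable f2 := by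
    have : f2 = fun t : ℝ => h ((c : ℂ) + t * I) + f1 t := by
      funext t
      rw [hsplit t]
      ring
    rw [this]
    exact hint.add hf1int
  have hsum : ∫ t : ℝ, h ((c : ℂ) + t * I) = -(∫ t, f1 t) + ∫ t, f2 t := by
    rw [integral_congr_ae (Eventually.of_forall hsplit)]
    have e := integral_add (f := fun t => -f1 t) (g := f2) hf1int.neg hf2int
    rw [e, integral_neg]
  have b1 := h1 T hT N hN hNT1 δ hδ hδT
  have b2 := h2 T hT N hN hNT1 δ hδ hδT
  have hDd := (hDD N δ hN hδ (by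
    have hl : Real.log N ≤ Real.log T := Real.log_le_log (by exact_mod_cast hN) hNT1
    have := Real.log_two_gt_d9
    nlinarith)).1
  rw [hLHS, hshift, hsum, add_re, neg_re]
  have b3 : -(∫ t, f1 t).re ≤ C1 * δ * N * Real.log T ^ 5 +
      Dd N δ * ((1 + CR * δ) * (T * ∫ x : ℝ, ph P x)) := by
    have e1 := (Complex.abs_re_le_norm _).trans b1
    have e2 := (abs_le.1 e1).1
    rw [add_re, re_ofReal_mul] at e2
    have e3 := mul_le_mul_of_nonneg_left hrho hDd
    linarith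
  have b4 : (∫ t, f2 t).re ≤ C2 * δ * N * Real.log T ^ 5 :=
    (Complex.re_le_norm _).trans b2
  have b5 : (C1 + C2) * N * Real.log T ^ 5 ≤ T := by
    refine le_trans ?_ hev
    have : 0 ≤ Real.log T ^ 5 := by positivity
    gcongr
  nlinarith [mul_le_mul_of_nonneg_left b5 hδ.le]

end Pool.Agent.H101.HB
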