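import Pool.Agent.H101.HB.Fin

/-!
# Project HB-uniform (helper101): the main theorem
-/

set_option autoImplicit false

open Complex MeasureTheory Filter Topology Set

namespace Pool.Agent.H101.HB

open Pool.Agent.Y763.HB

theorem six_pi : 3 / 5 ≤ 6 / Real.pi ^ 2 := by
  rw [le_div_iff₀ (by positivity)]
  have h1 := Real.pi_lt_d2
  have h2 := Real.pi_pos
  nlinarith

/-- the part `X > T` of the integral -/
theorem main_tail (ε : ℝ) (hε : 0 < ε) (hε1 : ε ≤ 1 / 4) : ∃ α : ℝ, 0 < α ∧ ∀ᶠ T : ℝ in atTop, ∀ δ : ℝ,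
    0 < δ → δ * Real.log T ≤ α →
    ENNReal.ofReal ((1 / 2 - ε) * (6 / Real.pi ^ 2)) ≤ ENNReal.ofReal (2 * δ) *
      ∫⁻ X in Ioi T, ENNReal.ofReal (v T X * X ^ (-(2 * δ) - 1)) := by
  obtain ⟨α, hα, h⟩ := main_all (ε / 2) (by positivity) (by linarith)
  refine ⟨min α (ε / 1000), by positivity, ?_⟩
  filter_upwards [h, eventually_ge_atTop 3] with T h hT
  intro δ hδ hδT
  have hlog := log_three hT
  have h1 := h δ hδ (hδT.trans (min_le_left _ _))
  have h2 : δ * Real.log T ≤ ε / 1000 := hδT.trans (min_le_right _ _)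
  have hδe : δ ≤ ε / 1000 := by nlinarith
  have hT0 : 0 < T := by linarith
  have hsplit : Lw T δ = (∫⁻ X in Ioc (0:ℝ) T, ENNReal.ofReal (v T X * X ^ (-(2 * δ) - 1))) +
      ∫⁻ X in Ioi T, ENNReal.ofReal (v T X * X ^ (-(2 * δ) - 1)) := by
    unfold Lw
    rw [← Ioc_union_Ioi_eq_Ioi hT0.le]
    exact lintegral_union measurableSet_Ioi
      (by rw [disjoint_iff_inter_eq_empty]; ext x; simp)
  have hsm := Pool.Agent.H757.HB.SM.t_SM T δ (by linarith) hδ (by linarith)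
  rw [hsplit, mul_add] at h1
  have h3 : ENNReal.ofReal (2 * δ) * (∫⁻ X in Ioc (0:ℝ) T, ENNReal.ofReal (v T X * X ^ (-(2 * δ) - 1))) ≤
      ENNReal.ofReal (ε / 2 * (6 / Real.pi ^ 2)) := by
    refine (mul_le_mul' le_rfl hsm).trans ?_
    rw [← ENNReal.ofReal_mul (by positivity)]
    apply ENNReal.ofReal_le_ofReal
    have := six_pi
    nlinarith
  have h4 := h1.trans (add_le_add h3 le_rfl)
  have h5 : (1 / 2 - ε) * (6 / Real.pi ^ 2) =
      (1 / 2 - ε / 2) * (6 / Real.pi ^ 2) - ε / 2 * (6 / Real.pi ^ 2) := by ring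
  rw [h5, ENNReal.ofReal_sub _ (by positivity)]
  exact tsub_le_iff_left.2 h4

/-- the main theorem -/
theorem main (ε : ℝ) (hε : 0 < ε) : ∃ α T₀ : ℝ, 0 < α ∧ 3 ≤ T₀ ∧ ∀ T : ℝ, T₀ ≤ T →
    (∀ δ : ℝ, 0 < δ → δ * Real.log T ≤ α →
      ENNReal.ofReal ((1 / 2 - ε) * (6 / Real.pi ^ 2)) ≤ ENNReal.ofReal (2 * δ) *
        ∫⁻ X in Ioi T, ENNReal.ofReal (V X (X / T) / (X / T) * X ^ (-(2 * δ) - 1))) ∧
    (∃ᶠ Y : ℝ in atTop, (1 / 2 - ε) * (6 / Real.pi ^ 2) * Real.log Y ≤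
      ∫ X in T..Y, V X (X / T) / (X / T) / X) := by
  set e : ℝ := min (ε / 2) (1 / 4) with he
  have he0 : 0 < e := by positivity
  have he1 : e ≤ ε / 2 := min_le_left _ _
  obtain ⟨α, hα, h⟩ := main_tail e he0 (min_le_right _ _)
  obtain ⟨T₁, hT₁⟩ := eventually_atTop.1 h
  refine ⟨α, max T₁ 3, hα, le_max_right _ _, fun T hT => ?_⟩
  have h1 := hT₁ T ((le_max_left _ _).trans hT)
  have hT3 : 3 ≤ T := (le_max_right _ _).trans hT
  have ha : 0 < 6 / Real.pi ^ 2 := by positivity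
  have hmono : (1 / 2 - ε) * (6 / Real.pi ^ 2) ≤ (1 / 2 - e) * (6 / Real.pi ^ 2) :=
    mul_le_mul_of_nonneg_right (by linarith) ha.le
  refine ⟨fun δ hδ hδT => (ENNReal.ofReal_le_ofReal hmono).trans (h1 δ hδ hδT), ?_⟩
  have hlog := log_three hT3
  by_cases hc : 0 ≤ (1 / 2 - ε) * (6 / Real.pi ^ 2)
  · refine Pool.Agent.H484.HB.s_AB T ((1 / 2 - ε) * (6 / Real.pi ^ 2)) ((1 / 2 - e) * (6 / Real.pi ^ 2))
      (by linarith) hc (mul_lt_mul_of_pos_right (by linarith) ha) ?_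
    have hpos : 0 < α / Real.log T := by positivity
    filter_upwards [Ioo_mem_nhdsGT hpos] with δ hδ
    refine h1 δ hδ.1 ?_
    have := hδ.2
    rw [lt_div_iff₀ (by linarith)] at this
    exact this.le
  · rw [not_le] at hc
    refine Eventually.frequently ?_
    filter_upwards [eventually_ge_atTop T] with Y hY
    have hY0 : 0 ≤ Real.log Y := Real.log_nonneg (by linarith)
    have h2 : 0 ≤ ∫ X in T..Y, V X (X / T) / (X / T) / X := by
      refine intervalIntegral.integral_nonneg hY fun X hX => ?_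
      have hX0 : 0 < X := by linarith [hX.1]
      have := v_nonneg (T := T) (by linarith) hX0
      unfold v at this
      positivity
    nlinarith

end Pool.Agent.H101.HB
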