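import Pool.Graph.R_pool_sql_team_seeded_1acbe0a2.Y763.HB.Stm

/-!
# Project HB-uniform (helper101), MP_0575cc_nt: definitions and statements of the pieces

Goal: for every `ε > 0` there are `α₀ > 0`, `T₀` such that for all `T ≥ T₀`, `0 < δ ≤ α₀ / log T`
`2 δ ∫_T^∞ V(X; X/T) / (X/T) X^(-2δ) dX/X ≥ (1/2 - ε) 6/π²`.

Throughout `σ = 1/2 + δ`, `θ = 1 / (2 T)`.
-/

set_option autoImplicit false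

open Complex MeasureTheory Filter Topology Set

namespace Pool.Agent.H101.HB

open Pool.Agent.Y763.HB

/-! ## The problem -/

/-- `M(x; H)`, the sum of `μ(n)` over `|n - x| < H / 2` -/
noncomputable def M (x H : ℝ) : ℝ :=
  ∑ n ∈ (Finset.range (⌈x + H⌉₊ + 1)).filter (fun n : ℕ => |(n : ℝ) - x| < H / 2),
    ((ArithmeticFunction.moebius n : ℤ) : ℝ)

/-- `V(X; H)`, the mean of `M(x; H)²` over `X ≤ x ≤ 2X` -/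
noncomputable def V (X H : ℝ) : ℝ := (1 / X) * ∫ x in X..2 * X, M x H ^ 2

/-- the ratio `V(X; X/T) / (X/T)` -/
noncomputable def v (T X : ℝ) : ℝ := V X (X / T) / (X / T)

/-- `∫_0^∞ v(X) X^(-2δ-1) dX` -/
noncomputable def Lw (T δ : ℝ) : ENNReal :=
  ∫⁻ X in Ioi (0 : ℝ), ENNReal.ofReal (v T X * X ^ (-(2 * δ) - 1))

/-! ## Zeta -/

/-- `(s - 1) ζ(s)`, an entire function (`Pool.Agent.H448R2.GC.zeta_one_entire` in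
`Pool/Graph/R_seed8/H448R2/GC/X2.lean`) -/
noncomputable def G : ℂ → ℂ := Function.update (fun w : ℂ => (w - 1) * riemannZeta w) 1 1

/-- `s (s - 1) Λ(s)`, entire; `xi (1 - s) = xi s`; `xi s = s * G s * Gammaℝ s` for `0 < Re s` -/
noncomputable def xi (s : ℂ) : ℂ := s * (s - 1) * completedRiemannZeta₀ s + 1

/-- `1 / ζ(s)`, with the value `0` at `1` -/
noncomputable def iz (s : ℂ) : ℂ := (s - 1) / G s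

/-- no zero of `ζ` in `σ ≤ Re s ≤ 3`, with a polynomial bound for `1/ζ` there -/
def Good (σ : ℝ) : Prop := ∃ (C : ℝ) (k : ℕ), 0 < C ∧ ∀ s : ℂ, σ ≤ s.re → s.re ≤ 3 →
  G s ≠ 0 ∧ ‖(G s)⁻¹‖ ≤ C * (1 + |s.im|) ^ k

/-- the point `1/2 + δ + i t` -/
noncomputable def ln (δ t : ℝ) : ℂ := ((1 / 2 + δ : ℝ) : ℂ) + (t : ℂ) * I

/-- `b(s) = ξ(s - 2δ) / ξ(s)`, of modulus `1` on the line `Re s = 1/2 + δ` -/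
noncomputable def b (δ : ℝ) (s : ℂ) : ℂ := xi (s - ((2 * δ : ℝ) : ℂ)) / xi s

/-- the quotient of the gamma factors -/
noncomputable def R (δ : ℝ) (s : ℂ) : ℂ := Gammaℝ (s - ((2 * δ : ℝ) : ℂ)) / Gammaℝ s

/-! ## Dirichlet polynomials and weights -/

/-- the real Möbius function -/
noncomputable def mu (n : ℕ) : ℝ := ((ArithmeticFunction.moebius n : ℤ) : ℝ)

/-- `∑_{n ≤ N} μ(n) n^(-s)` -/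
noncomputable def A (N : ℕ) (s : ℂ) : ℂ := ∑ n ∈ Finset.Icc 1 N, (mu n : ℂ) * (n : ℂ) ^ (-s)

/-- the entire weight with `W P T σ (σ + i t) = ph P (t / T)` -/
noncomputable def W (P : Polynomial ℝ) (T σ : ℝ) (s : ℂ) : ℂ :=
  (P.map (algebraMap ℝ ℂ)).eval (cexp ((s - (σ : ℂ)) ^ 2 / (T : ℂ) ^ 2)) *
    cexp ((s - (σ : ℂ)) ^ 2 / (T : ℂ) ^ 2)

/-- `∑_{n ≤ N} μ(n)² n^(-1-2δ)` -/
noncomputable def Sd (N : ℕ) (δ : ℝ) : ℝ := ∑ n ∈ Finset.Icc 1 N, mu n ^ 2 * (n : ℝ) ^ (-(1 + 2 * δ))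

/-- `∑_{m ≤ N} μ(m)² m^(-1-2δ) (1 - ∏_{p ∣ m} (2 - p^(2δ)))` -/
noncomputable def Dd (N : ℕ) (δ : ℝ) : ℝ := ∑ m ∈ Finset.Icc 1 N, mu m ^ 2 *
  (m : ℝ) ^ (-(1 + 2 * δ)) * (1 - ∏ p ∈ m.primeFactors, (2 - (p : ℝ) ^ (2 * δ)))

/-- `∑_{m ≤ N} μ(m)² log m / m` -/
noncomputable def S2 (N : ℕ) : ℝ := ∑ m ∈ Finset.Icc 1 N, mu m ^ 2 * Real.log m / m

/-! ## Statements -/

/-- Arithmetic: Abel summation from `S_D1`. `D1 N = ∑_{n ≤ N} μ(n)²/n = (6/π²) log N + O(1)`.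
`S2 N = D1 N log N - ∑_{n < N} D1 n (log (n+1) - log n)`; insert `D1 n ≥ (6/π²) log n - C`, `D1 N ≤ ...`,
and `∑_{n<N} log n (log (n+1) - log n) ≥ (log N)²/2 - 1`
(`(log (n+1))² - (log n)² = (log(n+1) - log n) (2 log n + (log (n+1) - log n))`, and
`∑ (log (n+1) - log n)² ≤ ∑ 1/n² ≤ 2`). -/
def S_S2 : Prop := S_D1 → ∃ C : ℝ, 0 < C ∧ ∀ N : ℕ, 1 ≤ N →
  S2 N ≤ 3 / Real.pi ^ 2 * Real.log N ^ 2 + C * (1 + Real.log N)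

/-- The diagonal. Let `mu m ≠ 0` (`m` squarefree), `m ≤ N`. For `p ∣ m`, `x_p = p^(2δ) - 1` is in `[0, 1]`
(`p^(2δ) = exp (2 δ log p) ≤ exp (2 δ log N) ≤ 2`) and `x_p ≤ 2 δ log p · p^(2δ) ≤ 2 δ log p exp (2 δ log N)`
(`e^x - 1 ≤ x e^x`). `0 ≤ 1 - ∏ (1 - x_p) ≤ ∑ x_p` (Mathlib `Finset.prod_one_sub_...` or induction), and
`∑_{p ∣ m} log p = log m` for squarefree `m`. Finally `m^(-(1+2δ)) ≤ 1/m`. -/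
def S_DD : Prop := ∀ (N : ℕ) (δ : ℝ), 1 ≤ N → 0 < δ → 2 * δ * Real.log N ≤ Real.log 2 →
  0 ≤ Dd N δ ∧ Dd N δ ≤ 2 * δ * Real.exp (2 * δ * Real.log N) * S2 N

/-- the coefficients `β = pow_{2δ} * μ` of `ζ(s - 2δ) / ζ(s)` -/
noncomputable def be (δ : ℝ) (k : ℕ) : ℝ := ∑ d ∈ k.divisors, mu d * ((k / d : ℕ) : ℝ) ^ (2 * δ)

/-- the coefficients of `A(s) (ζ(s - 2δ)/ζ(s) - 1)` -/
noncomputable def aa (N : ℕ) (δ : ℝ) (l : ℕ) : ℝ :=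
  ∑ n ∈ l.divisors.filter (fun n => n ≤ N ∧ n < l), mu n * be δ (l / n)

/-- Dirichlet series of `A (ζ(s-2δ)/ζ(s) - 1)`. With the completely multiplicative `f(n) = n^(2δ)`:
`be = μ * f`, `be k ≥ 0` (multiplicative, `be (p^j) = p^(2δj) - p^(2δ(j-1))`), `∑_{k ∣ l} be k = l^(2δ)` (as `1 * μ = ε`),
`be 1 = 1`. (i) `|aa l| ≤ ∑_{n ∣ l, n < l} be (l/n) = l^(2δ) - be 1`. (ii) for `m ≤ N`:
`aa m = (μ * μ * f)(m) - μ(m)`; for squarefree `m` the first term is `∏_{p ∣ m} (p^(2δ) - 2)`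
(multiplicativity), which is `μ(m) ∏ (2 - p^(2δ))`; for other `m` both sides vanish as `mu m = 0`.
(iii) `riemannZeta (s - 2δ) = ∑ n^(2δ) n^(-s)`, `1 / riemannZeta s = ∑ μ(n) n^(-s)`, so the product is `∑ be k k^(-s)`
(absolutely convergent; `LSeries_convolution'` or `ArithmeticFunction.LSeriesHasSum...`), and multiply
by the finite sum `A N s`: the coefficient of `l` in `A N s (∑_{k ≥ 2} be k k^(-s))` is `aa l`. -/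
def S_DS : Prop := ∀ (N : ℕ) (δ : ℝ), 0 < δ → δ ≤ 1 / 4 →
  (∀ l : ℕ, 1 ≤ l → |aa N δ l| ≤ (l : ℝ) ^ (2 * δ) - 1) ∧
  (∀ m : ℕ, 1 ≤ m → m ≤ N → aa N δ m * mu m = mu m ^ 2 * (∏ p ∈ m.primeFactors, (2 - (p : ℝ) ^ (2 * δ)) - 1)) ∧
  ∀ s : ℂ, 1 + 2 * δ < s.re →
    HasSum (fun l : ℕ => (aa N δ l : ℂ) * (l : ℂ) ^ (-s))
      (A N s * (riemannZeta (s - ((2 * δ : ℝ) : ℂ)) / riemannZeta s - 1))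

/-- The sum over the off-diagonal terms. Put `η = 1 / log T ∈ (0, 1)`. Since `|log (m/l)| ≥ |m - l| / max m l`,
`1 / |log (m/l)| ≤ 1 + min m l / |m - l|`. So the term is at most
`log l · l^(-1-η)` (sum over `l`: `≤ C/η²`, e.g. `log l ≤ (2/η) l^(η/2)` and `∑ l^(-1-η/2) ≤ 1 + 2/η`) plus
`log l · l^(-1-η) min m l / |m - l|`, which for `l < m` is `≤ log m / (m - l)` (sum `≤ log m (1 + log m)`)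
and for `l = m + j > m` is `≤ log (m+j) · (m+j)^(-η) / j ≤ (log (2 m) + log (2 j)) j^(-1-η)`
(as `m / l ≤ 1`, `l^(-η) ≤ j^(-η)`; sum `≤ C (log T)²`). The exponent `3` leaves room. -/
def S_OS : Prop := ∃ C : ℝ, 0 < C ∧ ∀ T : ℝ, 3 ≤ T → ∀ m : ℕ, 1 ≤ m → (m : ℝ) ≤ T →
  Summable (fun l : ℕ => if l = 0 ∨ l = m then (0 : ℝ) else
    Real.log l * (l : ℝ) ^ (-(1 + 1 / Real.log T)) / |Real.log ((m : ℝ) / l)|) ∧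
  ∑' l : ℕ, (if l = 0 ∨ l = m then (0 : ℝ) else
    Real.log l * (l : ℝ) ^ (-(1 + 1 / Real.log T)) / |Real.log ((m : ℝ) / l)|) ≤ C * Real.log T ^ 3

/-- The quotient of the gamma factors. Let `ψ_R = Γ_R'/Γ_R`, `ψ_R(s) = -(log π)/2 + ψ(s/2)/2`
(`dgr`, `gr_hd` in `Pool/Graph/R_pool_sql_team_seeded_3997aac3/Q66/GB/Gam.lean`). `R' = R (ψ_R(s - 2δ) - ψ_R(s))`.
* Upper bound for `ψ_R`: `dg_bound` there. Difference: `psi_lip` in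
`Pool/Graph/R_pool_sql_team_seeded_63374d34/N573/TLG/A.lean` (`‖ψ(z') - ψ(z)‖ ≤ 6 Δ / R` for `‖z‖, ‖z'‖ ≥ R ≥ 1`), and for
bounded `Im s` `dg_bound`. `‖R‖ ≤ C`: `gamB`/`gamA`/`fac_up` in
`Pool/Graph/R_pool_sql_team_seeded_63374d34/N799/GL/Gam.lean` (e.g. `(1+‖z‖)^δ ‖Γ(z-δ)‖ ≤ C ‖Γ(z)‖` by `gamB`).
* On the line: let `E(r) = Gammaℝ (s - r) / Gammaℝ s`, `0 ≤ r ≤ 2δ`, `E(0) = 1`, `E' = -ψ_R(s - r) E`, so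
`1 - R(s) = ∫_0^{2δ} ψ_R(s - r) E(r) dr` (or the mean value inequality). There are `C₁`, with
`|Re ψ_R(s - r) - (1/2) log (2 + |t|)| ≤ C₁` and `|Im ψ_R(s - r)| ≤ C₁` (`psi_bd` in `N799/GL/Gam.lean`:
`‖ψ(u) - log (u + k + 2)‖ ≤ K`). If `(1/2) log (2 + |t|) ≥ C₁` then `|E(r)| ≤ 1` (as `d/dr log |E| = -Re ψ_R ≤ 0`), so
`Re (1 - R) ≤ 2 δ ((1/2) log (2+|t|) + 2 C₁)` and `Re R ≤ 1`. Otherwise `|t|` is bounded and `‖ψ_R E‖ ≤ C`, so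
`‖1 - R‖ ≤ C δ`. -/
def S_R : Prop := ∃ C : ℝ, 0 < C ∧ ∀ δ : ℝ, 0 < δ → δ ≤ 1 / 8 →
  (∀ s : ℂ, 1 / 2 + δ ≤ s.re → s.re ≤ 3 → DifferentiableAt ℂ (R δ) s ∧ ‖R δ s‖ ≤ C ∧
    ‖deriv (R δ) s‖ ≤ C / (1 + |s.im|)) ∧
  ∀ t : ℝ, 1 - (R δ (ln δ t)).re ≤ δ * (Real.log (2 + |t|) + C) ∧ (R δ (ln δ t)).re ≤ 1 + C * δ

/-- Integration by parts: with `F(t) = R(c+it) W(c+it)` one has
`∫ e^{ity} F(t) dt = (i/y) ∫ e^{ity} F'(t) dt` (`MeasureTheory.integral_mul_deriv_eq_deriv_mul_of_integrable` or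
`integral_mul_deriv_eq_deriv_mul`), and `‖W(c+it)‖ ≤ C exp (-t²/T²)`, `‖W'(c+it)‖ ≤ C ((3+|t|)/T²) exp (-t²/T²)`
(`W` is a polynomial without constant term in `exp ((s-σ)²/T²)`, `|exp ((s-σ)²/T²)| = exp (((Re s - σ)² - t²)/T²) ≤ e^9 exp (-t²/T²)`),
`‖R‖ ≤ C`, `‖R'‖ ≤ C/(1+|t|)`. `∫ exp (-t²/T²)/(1+|t|) dt ≤ C log T`, `∫ (3+|t|)/T² exp (-t²/T²) dt ≤ C`. -/
def S_IBP : Prop := S_R → ∀ P : Polynomial ℝ, ∃ C : ℝ, 0 < C ∧ ∀ T : ℝ, 3 ≤ T → ∀ δ : ℝ, 0 < δ →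
  δ ≤ 1 / 8 → ∀ c : ℝ, 1 / 2 + δ ≤ c → c ≤ 3 → ∀ y : ℝ, y ≠ 0 →
  ‖∫ t : ℝ, cexp (I * ((t * y : ℝ) : ℂ)) * (R δ ((c : ℂ) + t * I) * W P T (1 / 2 + δ) ((c : ℂ) + t * I))‖ ≤
    C * Real.log T / |y|

/-- Mean value of the Dirichlet polynomial. `‖A(σ+it)‖² = ∑_{m,n ≤ N} μ(m) μ(n) (mn)^(-σ) cos (t log (n/m))`; the terms
`m = n` give `T (∫ ph P) ∑ μ(n)² n^(-2σ)` (`S_FT`, first part), the other terms are, by `S_FT` (second part, with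
`w = log (n/m)`) and `S_OFF` (with `J` of `S_FT`), at most `(mn)^(-σ) C / (T² m²) ≤ C/(T² m²)`; their sum is
`≤ 2 C N / T² ≤ 1` for large `T`. -/
def S_MV : Prop := S_FT → S_OFF → ∀ P : Polynomial ℝ, ∀ ε : ℝ, 0 < ε → ε < 1 →
  ∀ᶠ T : ℝ in atTop, ∀ N : ℕ, (N : ℝ) ≤ T ^ (1 - ε) → ∀ δ : ℝ, 0 < δ → δ ≤ 1 / 4 →
  |(∫ t : ℝ, ‖A N (ln δ t)‖ ^ 2 * ph P (t / T)) - T * (∫ x : ℝ, ph P x) * Sd N δ| ≤ 1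

/-- The first inner product. On the line, `conj (A(s)) = A(1 + 2δ - s)`, `ph P (t/T) = W P T σ s`. Let
`h(s) = iz(s) A(1+2δ-s) W(s)`, differentiable in `σ ≤ Re s ≤ 2` (`Good`, `G` entire by `zeta_one_entire`), of size
`≤ C (1+|Im s|)^k exp (-(Im s)²/T²)`; so its integrals over `Re s = σ` and `Re s = 2` are equal
(`strip_shift`, `Pool/Graph/R_seed8/W182/KO/Strip.lean`; see also `shiftG` in `Pool.Agent.H101.HB.Bas`). On `Re s = 2`: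
`iz(s) = ∑ μ(n) n^(-s)`, so the integral is `∑_n ∑_{m ≤ N} μ(n) μ(m) m^(-1-2δ) ∫ (m/n)^s W(s) dt`; the inner integral may be
moved back to `Re s = σ`, where it is `(m/n)^σ ∫ (m/n)^{it} ph P (t/T) dt`: for `n = m` this gives the main term, for `n ≠ m`
it is (`S_FT`, `S_OFF` with the pair `(m, n)`) at most `(m/n)^σ C/(T² n²)`; the sum is `≤ 2 C N/T² ≤ 1`
as `m^(σ-1-2δ) ≤ 1`. -/
def S_I1 : Prop := S_FT → S_OFF → ∀ P : Polynomial ℝ, ∀ ε : ℝ, 0 < ε → ε < 1 →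
  ∀ᶠ T : ℝ in atTop, ∀ N : ℕ, (N : ℝ) ≤ T ^ (1 - ε) → ∀ δ : ℝ, 0 < δ → δ ≤ 1 / 4 → Good (1 / 2 + δ) →
  ‖(∫ t : ℝ, iz (ln δ t) * (starRingEnd ℂ) (A N (ln δ t)) * ((ph P (t / T) : ℝ) : ℂ)) -
    ((T * (∫ x : ℝ, ph P x) * Sd N δ : ℝ) : ℂ)‖ ≤ 1

/-- The second inner product. On the line `‖b‖ = 1` (`xi (s-2δ) = xi (1+2δ-s) = xi (conj s) = conj (xi s)`, and `xi s ≠ 0` by `Good`),
so `conj (b s) = xi s / xi (s - 2δ)`, and `iz s * xi s = s (s-1) Gammaℝ s`. With `z = conj s = 1+2δ-s` (substitute `t → -t`)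
the integrand is `H(z) = (1+2δ-z) (2δ-z) Gammaℝ (1+2δ-z) / xi z * A(z) * W(z)`, and
`(1+2δ-z) Gammaℝ (1+2δ-z) = 2π Gammaℝ (3+2δ-z)` (`Gammaℝ_add_two`), so
`H(z) = 2π (2δ-z) Gammaℝ (3+2δ-z) / xi z * A z * W z`, differentiable in `σ ≤ Re z ≤ 3/2+δ`, with polynomial times
Gaussian bound (`xi z = z G z Gammaℝ z`, `‖Gammaℝ (3+2δ-z)‖ = ‖Gammaℝ (z + (3+2δ-2 Re z))‖ ≤ C (1+‖z‖) ‖Gammaℝ z‖`
by `gamA`, `N799/GL/Gam.lean`). Move to `Re z = 3/2+δ`, where `Gammaℝ (3+2δ-z) = Gammaℝ (conj z)`, so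
`‖H(z)‖ = 2π ‖2δ-z‖ / (‖z‖ ‖G z‖) ‖A z‖ ‖W z‖ ≤ C exp (-t²/T²) / ‖z - 1‖` since `‖G z‖ = ‖z-1‖ ‖ζ(z)‖`,
`1/‖ζ(z)‖ ≤ ∑ n^(-3/2) ≤ 3`, `‖A z‖ ≤ 3`. The integral over `t` is `≤ C' log T`. (`shiftG` etc. in `Pool.Agent.H101.HB.Bas`.) -/
def S_I2 : Prop := ∀ P : Polynomial ℝ, ∃ C : ℝ, 0 < C ∧ ∀ T : ℝ, 3 ≤ T → ∀ (N : ℕ) (δ : ℝ), 0 < δ →
  δ ≤ 1 / 8 → Good (1 / 2 + δ) →
  ‖∫ t : ℝ, iz (ln δ t) * (starRingEnd ℂ) (A N (ln δ t) * b δ (ln δ t)) * ((ph P (t / T) : ℝ) : ℂ)‖ ≤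
    C * Real.log T

/-- The quadratic term: the part with `R - b`. On the line `‖A(s)‖² ph P (t/T) = A(s) A(1+2δ-s) W(s)`. The function
`A(s) A(1+2δ-s) (R(s) - b(s)) W(s)` is differentiable in `σ ≤ Re s ≤ c := 1+2δ+1/log T` and of size `≤ C (1+|Im s|)^k exp(-(Im s)²/T²)`
(`b_diff`, `b_bd`, `shiftG` in `Pool.Agent.H101.HB.Bas`); move to `Re s = c`. There `b = R q Z`,
`q = (s-2δ)(s-2δ-1)/(s(s-1))`, `Z = ζ(s-2δ)/ζ(s)`, and `R - b = -R (Z - 1) + R (1 - q) Z`.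
(I) `A (Z-1) = ∑_l aa(l) l^(-s)` (`S_DS`), so the first part is `-∑_l ∑_{m ≤ N} aa(l) μ(m) m^(-1-2δ) ∫ (m/l)^s R(s) W(s) dt`.
`l = m`: `(∑_{m ≤ N} m^(-1-2δ) (-aa(m) μ(m))) ρ = Dd N δ · ρ`, `ρ = ∫ R W` over `Re s = c` or, moved back, over `Re s = σ`, so
`Re ρ = ∫ Re R(ln δ t) ph P (t/T) dt ≤ (1 + C δ) T ∫ ph P`, and `Dd N δ ≥ 0` (`S_DD`).
`l ≠ m`: by `S_IBP` with `y = log (m/l)` at most `(l^(2δ)-1) m^(-1-2δ) (m/l)^c C log T / |log (m/l)|`, and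
`l^(2δ) - 1 ≤ 2 δ log l · l^(2δ)`, `(m/l)^c l^(2δ) m^(-1-2δ) = m^(1/log T) l^(-1-1/log T)`, `m^(1/log T) ≤ e`; by `S_OS` the sum over `l`
and `m ≤ N` is `≤ δ C N (log T)^4 ≤ δ T / 2`.
(II) `‖1-q‖ = 2δ ‖2s-1-2δ‖/(‖s‖‖s-1‖) ≤ 8 δ/‖s-1‖`, `‖A(s)‖ ≤ 1 + log T + ...`, `‖A(1+2δ-s)‖ ≤ e N`, `‖Z‖ ≤ (1 + log T)²`, `‖R‖ ≤ C`,
`∫ ‖W‖/‖s-1‖ dt ≤ C log T` (`‖s-1‖ ≥ max (1/log T) |t|`): this part is `≤ C δ N (log T)^5 ≤ δ T/2`. -/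
def S_K2 : Prop := S_R → S_IBP → S_DS → S_OS → S_DD → ∀ P : Polynomial ℝ,
  (∀ y ∈ Icc (0:ℝ) 1, 0 ≤ P.eval y) → ∀ ε : ℝ, 0 < ε → ε < 1 → ∃ C : ℝ, 0 < C ∧
  ∀ᶠ T : ℝ in atTop, ∀ N : ℕ, 1 ≤ N → (N : ℝ) ≤ T ^ (1 - ε) → ∀ δ : ℝ, 0 < δ →
  δ * Real.log T ≤ 1 / 8 → Good (1 / 2 + δ) →
  (∫ t : ℝ, ‖A N (ln δ t)‖ ^ 2 * ((R δ (ln δ t)).re - (b δ (ln δ t)).re) * ph P (t / T)) ≤
    T * (∫ x : ℝ, ph P x) * (1 + C * δ) * Dd N δ + δ * T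

/-- The quadratic term: the part with `1 - R`. By `S_R` `1 - Re R ≤ δ (log (2+|t|) + C)`; use `S_ARCH` with `B = C`,
`G y = ‖A N (ln δ y)‖² ≤ (∑ n^(-1/2))² ≤ 4 N ≤ T²`, and `S_MV`. -/
def S_K1 : Prop := S_R → S_ARCH → S_MV → S_FT → S_OFF → ∀ P : Polynomial ℝ,
  (∀ y ∈ Icc (0:ℝ) 1, 0 ≤ P.eval y) → ∀ ε : ℝ, 0 < ε → ε < 1 →
  ∀ᶠ T : ℝ in atTop, ∀ N : ℕ, 1 ≤ N → (N : ℝ) ≤ T ^ (1 - ε) → ∀ δ : ℝ, 0 < δ → δ ≤ 1 / 8 →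
  (∫ t : ℝ, ‖A N (ln δ t)‖ ^ 2 * (1 - (R δ (ln δ t)).re) * ph P (t / T)) ≤
    δ * ((1 + ε) * Real.log T * (T * (∫ x : ℝ, ph P x) * Sd N δ + 1) + 1)

/-- The core: a lower bound for the mean square of `1/ζ`. -/
def S_CORE : Prop := ∀ P : Polynomial ℝ, (∀ y ∈ Icc (0:ℝ) 1, 0 ≤ P.eval y) →
  0 < (∫ x : ℝ, ph P x) → ∀ ε : ℝ, 0 < ε → ∃ α : ℝ, 0 < α ∧ ∀ᶠ T : ℝ in atTop, ∀ δ : ℝ, 0 < δ →
  δ * Real.log T ≤ α → Good (1 / 2 + δ) →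
  (1 / 2 - ε) * (6 / Real.pi ^ 2) * (∫ x : ℝ, ph P x) * T ≤
    2 * δ * ∫ t : ℝ, ‖iz (ln δ t)‖ ^ 2 * ph P (t / T)

/-- Mellin transform and Plancherel. For `1 ≤ u ≤ 2` let `E_u(X) = M(uX; X/T)`, the sum of `μ(n)` over
`X(u-θ) < n < X(u+θ)`; it vanishes for `X < 1/3`. `V(X; X/T) = ∫_1^2 E_u(X)² du` (substitute `x = uX`), so
`Lw T δ = T ∫_0^∞ ∫_1^2 E_u(X)² X^(-2-2δ) du dX` (Tonelli). If `Lw T δ₀ < ⊤`, then for almost every `u`: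
`∫ E_u² X^(-2-2δ₀) dX < ∞`, so `∫ |E_u| X^(-σ'-1) dX < ∞` for `σ' > 1/2 + δ₀` (Cauchy-Schwarz, `X ≥ 1/3`), and
`F_u(s) = ∫ E_u X^(-s-1) dX` is analytic in `Re s > 1/2 + δ₀`. For `Re s > 1`, `F_u(s) = ζ(s)⁻¹ ((u+θ)^s - (u-θ)^s)/s`; hence
`F_u(s) s G(s) = (s-1) ((u+θ)^s - (u-θ)^s)` in `Re s > 1/2 + δ₀` (identity theorem). The right side is not zero except at
`s = 1` (moduli), `G(1) = 1`, so `G ≠ 0`, and `‖1/G(s)‖ ≤ C ‖s‖` for `|Im s| ≥ 1`, `1/2+δ ≤ Re s ≤ 3`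
(`(u+θ)^x - (u-θ)^x` is bounded below); for `|Im s| ≤ 1` compactness: `Good`. Plancherel for
`h(x) = E_u(e^x) e^(-σx)` in `L¹ ∩ L²` (`plancherel_lintegral` in `Pool/Graph/R_seed8/Helper76/HPlanch.lean`, use as in
`Pool/Graph/R_seed8/H448R2/GC/PL.lean`): `∫ E_u² X^(-2-2δ) dX = (1/2π) ∫ ‖F_u(σ+it)‖² dt`; integrate over `u`. -/
def S_PL : Prop := ∀ T δ₀ δ : ℝ, 1 ≤ T → 0 < δ₀ → δ₀ < δ → δ ≤ 1 / 2 → Lw T δ₀ < ⊤ →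
  Good (1 / 2 + δ) ∧
  ENNReal.ofReal (1 / (2 * Real.pi)) * (∫⁻ t : ℝ, ENNReal.ofReal (‖iz (ln δ t)‖ ^ 2 / ‖ln δ t‖ ^ 2 *
    (T * ∫ u in (1:ℝ)..2, ‖((u + 1 / (2 * T) : ℝ) : ℂ) ^ (ln δ t) - ((u - 1 / (2 * T) : ℝ) : ℂ) ^ (ln δ t)‖ ^ 2))) ≤
    Lw T δ

/-- The kernel on the line `Re s = σ = 1/2 + δ`. With `x = u+θ`, `y = u-θ`, `L = log (x/y) ≥ 2θ/u`:
`‖x^s - y^s‖² = x^(2σ) + y^(2σ) - 2 (xy)^σ cos (tL) = (xy)^σ (2 - 2 cos (tL)) + (x^σ - y^σ)²` and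
`(x^σ - y^σ)² ≥ (xy)^σ σ² L²` (`2 sinh (σL/2) ≥ σL`). `(xy)^σ ≥ (xy)^(1/2) (1-θ²)^δ ≥ √(xy) (1-θ²)` as `xy = u²-θ² ≥ 1-θ²`. So
the right side is `≥ (1-θ²) (KT T t + T σ² ∫_1^2 √(xy) (2θ/u)² du)`, `√(xy) ≥ u √(1-θ²)`, hence
`≥ (1-θ²) (KT T t + (1-θ²) (σ²/T) log 2)`. `KT T t ≥ (1-κ') (t²/T) ph P (t/T)` by `S_KER`, and `ph P ≤ log 2` everywhere (from
`x² ph P x ≤ kk x ≤ x² log 2`, and continuity at `0`), `‖ln δ t‖² = σ² + t²`. -/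
def S_KS : Prop := S_KPOS → S_KBIG → S_KCMP → S_KER → ∀ P : Polynomial ℝ,
  (∀ y ∈ Icc (0:ℝ) 1, 0 ≤ P.eval y) → (∀ x : ℝ, x ^ 2 * ph P x ≤ kk x) →
  ∀ κ : ℝ, 0 < κ → ∀ᶠ T : ℝ in atTop, ∀ δ : ℝ, 0 < δ → δ ≤ 1 / 2 → ∀ t : ℝ,
  (1 - κ) * (‖ln δ t‖ ^ 2 / T) * ph P (t / T) ≤
    T * ∫ u in (1:ℝ)..2, ‖((u + 1 / (2 * T) : ℝ) : ℂ) ^ (ln δ t) - ((u - 1 / (2 * T) : ℝ) : ℂ) ^ (ln δ t)‖ ^ 2

/-- The trivial range `X ≤ T`. `H = X/T ≤ 1`, so the window `|n - x| < H/2` contains at most one integer and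
`M(x;H)² ≤ ∑_{n ≥ 1} 1_{|n-x| < H/2}`; `∫_X^{2X} M² dx ≤ H #{1 ≤ n < 2X + 1/2} ≤ H (2X + 1/2)`, and `M = 0` if `X < 1/4`
(then `|n - x| < 1/8`, `x ≤ 1/2` force `n = 0`). So `v ≤ 2 + 1/(2X) ≤ 4`, and
`∫_{1/4}^T 4 X^(-2δ-1) dX ≤ 4 · 4^(2δ) (log T + log 4) ≤ 20 (log T + 2)`. -/
def S_SM : Prop := ∀ T δ : ℝ, 1 ≤ T → 0 < δ → δ ≤ 1 / 4 →
  ∫⁻ X in Ioc (0 : ℝ) T, ENNReal.ofReal (v T X * X ^ (-(2 * δ) - 1)) ≤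
    ENNReal.ofReal (20 * (Real.log T + 2))

/-- The Abelian argument. Otherwise for some `Y₀ ≥ T`: `Φ(Y) = ∫_T^Y v/X dX < c log Y` for all `Y ≥ Y₀` (`v ≥ 0` is measurable and
bounded on compact sets: `|M x H| ≤ H + 1`; so `Φ` is also the lower integral). By Tonelli
(`X^(-2δ) = ∫_X^∞ 2δ Y^(-2δ-1) dY`) `∫_T^∞ v X^(-2δ-1) dX = ∫_T^∞ 2δ Y^(-2δ-1) Φ(Y) dY ≤ 2δ (Y₀ - T) Φ(Y₀) + 2δ c ∫_1^∞ log Y Y^(-2δ-1) dY`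
`= 2δ C₀ + c/(2δ)`, so `κ ≤ 4δ² C₀ + c`; let `δ → 0`. -/
def S_AB : Prop := ∀ T c κ : ℝ, 1 ≤ T → 0 ≤ c → c < κ →
  (∀ᶠ δ : ℝ in 𝓝[>] 0, ENNReal.ofReal κ ≤
    ENNReal.ofReal (2 * δ) * ∫⁻ X in Ioi T, ENNReal.ofReal (v T X * X ^ (-(2 * δ) - 1))) →
  ∃ᶠ Y : ℝ in atTop, c * Real.log Y ≤ ∫ X in T..Y, v T X / X

end Pool.Agent.H101.HB
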