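import Pool.Agent.H101.HB.Bas

/-!
# Project HB-uniform (helper101): the two parts of `S_K2`
-/

set_option autoImplicit false

open Complex MeasureTheory Filter Topology Set

namespace Pool.Agent.H101.HB

open Pool.Agent.Y763.HB

/-- the line `Re s = 1 + 2δ + 1 / log T` -/
noncomputable def lc (T δ t : ℝ) : ℂ := ((1 + 2 * δ + 1 / Real.log T : ℝ) : ℂ) + (t : ℂ) * I

/-- `ζ(s - 2δ) / ζ(s)` -/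
noncomputable def Z (δ : ℝ) (s : ℂ) : ℂ := riemannZeta (s - ((2 * δ : ℝ) : ℂ)) / riemannZeta s

/-- `(s - 2δ) (s - 2δ - 1) / (s (s - 1))` -/
noncomputable def q (δ : ℝ) (s : ℂ) : ℂ :=
  (s - ((2 * δ : ℝ) : ℂ)) * (s - ((2 * δ : ℝ) : ℂ) - 1) / (s * (s - 1))

/-- Part I. `A (Z - 1) = ∑_l aa(l) l^(-s)` (`S_DS`), `A(1+2δ-s) = ∑_{m ≤ N} μ(m) m^(-1-2δ) m^s`, so the first integral is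
`∑_l ∑_{m ≤ N} aa(l) μ(m) m^(-1-2δ) ∫ (m/l)^s R(s) W(s) dt` (absolute convergence:
`∑_l |aa l| l^(-c) ≤ ∑ l^(2δ-c)`, `∫ ‖R‖ ‖W‖ < ∞`). The terms `l = m` give `∑_{m ≤ N} aa(m) mu(m) m^(-1-2δ) ∫ R W = -Dd N δ ∫ R W`
(`S_DS` (ii), the power is real: `m^(-(1+2δ))`). For `l ≠ m` (`l = 0` does not occur, `aa 0 = 0`; `l = 1` has `aa 1 = 0`):
`S_IBP` with `y = log (m/l)` and `c`: at most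
`(l^(2δ) - 1) m^(-1-2δ) (m/l)^c C log T / |log (m/l)|`, and `l^(2δ) - 1 ≤ 2δ log l · l^(2δ)`,
`l^(2δ) m^(-1-2δ) (m/l)^c = m^(1/log T) l^(-(1+1/log T))`, `m^(1/log T) ≤ e` (as `m ≤ N ≤ T`). By `S_OS` the sum over `l` is
`≤ 2 e δ C log T · C' (log T)³`, and the sum over `m ≤ N` gives the factor `N`. (`δ ≤ 1/8` follows from
`δ log T ≤ 1/8`, `T ≥ 3`.) -/
def S_K2I : Prop := S_R → S_IBP → S_DS → S_OS → ∀ P : Polynomial ℝ, ∃ C : ℝ, 0 < C ∧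
  ∀ T : ℝ, 3 ≤ T → ∀ N : ℕ, 1 ≤ N → (N : ℝ) ≤ T → ∀ δ : ℝ, 0 < δ → δ * Real.log T ≤ 1 / 8 →
  ‖(∫ t : ℝ, A N (lc T δ t) * (Z δ (lc T δ t) - 1) * A N (((1 + 2 * δ : ℝ) : ℂ) - lc T δ t) *
      R δ (lc T δ t) * W P T (1 / 2 + δ) (lc T δ t)) +
    (Dd N δ : ℂ) * ∫ t : ℝ, R δ (lc T δ t) * W P T (1 / 2 + δ) (lc T δ t)‖ ≤ C * δ * N * Real.log T ^ 5

/-- Part II. Put `η = 1/log T`, `s = lc T δ t`, `Re s = 1 + 2δ + η ≤ 3`. `1 - q = 2δ (2s - 1 - 2δ)/(s (s-1))`, so `‖1 - q‖ ≤ 8 δ/‖s-1‖`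
(`‖s‖ ≥ 1`). `‖A N s‖ ≤ ∑_{n ≤ N} 1/n ≤ 1 + log T`, `‖A N (1+2δ-s)‖ ≤ ∑_{m ≤ N} m^η ≤ e N`,
`‖ζ(s-2δ)‖ ≤ ∑ n^(-1-η) ≤ 1 + 1/η`, `‖1/ζ(s)‖ ≤ ∑ n^(-1-η) ≤ 1 + log T` (`iz_sum`), `‖R‖ ≤ C` (`S_R`), `‖W‖ ≤ C exp(-t²/T²)` (`W_bd`).
`‖s-1‖ ≥ max η |t| ≥ (η + |t|)/2`, so `∫ exp (-t²/T²)/‖s-1‖ dt ≤ 4 ∫_0^T dt/(η+t) + (4/T) ∫_T^∞ exp(-t²/T²) dt ≤ C log T`. Total
`≤ C δ N (log T)^4`; exponent `5` leaves room. (`δ ≤ 1/8` follows from `δ log T ≤ 1/8`, `T ≥ 3`.) -/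
def S_K2II : Prop := S_R → ∀ P : Polynomial ℝ, ∃ C : ℝ, 0 < C ∧
  ∀ T : ℝ, 3 ≤ T → ∀ N : ℕ, 1 ≤ N → (N : ℝ) ≤ T → ∀ δ : ℝ, 0 < δ → δ * Real.log T ≤ 1 / 8 →
  ‖∫ t : ℝ, A N (lc T δ t) * A N (((1 + 2 * δ : ℝ) : ℂ) - lc T δ t) *
      (R δ (lc T δ t) * (1 - q δ (lc T δ t)) * Z δ (lc T δ t)) * W P T (1 / 2 + δ) (lc T δ t)‖ ≤
    C * δ * N * Real.log T ^ 5

end Pool.Agent.H101.HB
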